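import Pool.Agent.Lib.MP_2619d0_ag.K.K5

/-!
Row K7: families given by many quadratic forms.
-/

set_option autoImplicit false

namespace MP2619.K

universe u

open MvPolynomial Pool.Agent.Lib.MP_2619d0_ag Pool.Agent.Lib.MP_2619d0_ag.T MP2619.T

section descent

variable {E L : Type u} [Field E] [Field L] [Algebra E L]

/-- polynomials with coefficients in a subfield -/
theorem K7_descent {n : ℕ} (M : Subfield L) (φ : MvPolynomial (Fin n) E) (hφ : φ.IsHomogeneous 2)
    (h : ∀ d ∈ φ.support, algebraMap E L (coeff d φ) ∈ M) :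
    ∃ φM : MvPolynomial (Fin n) M, φM.IsHomogeneous 2 ∧
      ∀ u : Fin n → M, ((eval u φM : M) : L) = aeval (fun i => (u i : L)) φ := by
  classical
  refine ⟨∑ d : φ.support, monomial d.1 ⟨algebraMap E L (coeff d.1 φ), h d.1 d.2⟩, ?_, ?_⟩
  · refine IsHomogeneous.sum _ _ _ fun d _ => ?_
    exact isHomogeneous_monomial _ (degree_of_mem hφ d.2)
  · intro u
    have h1 : ∀ z : M, (z : L) = M.subtype z := fun _ => rfl
    rw [h1, map_sum (eval u), map_sum M.subtype, aeval_def, eval₂_eq', ← Finset.sum_coe_sort φ.support]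
    refine Finset.sum_congr rfl fun d _ => ?_
    rw [eval_monomial, map_mul, Finsupp.prod_fintype _ _ (fun i => pow_zero _), map_prod]
    simp only [map_pow]
    rfl

end descent

section main

variable {m k : ℕ} {E L : Type u} [Field E] [Field L] [Algebra ℂ E] [Algebra ℂ L] [Algebra E L]
  [IsScalarTower ℂ E L]

/-- A line through `p` contracted by `φ`. -/
theorem K7_line (φ : Fin (m+1+1) → MvPolynomial (Fin (k + 1)) E) (hφ : ∀ j, (φ j).IsHomogeneous 2)
    (hk : 1 ≤ k) (p : Fin (k + 1) → L) (hp : GenE E p)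
    (x : Fin (m+1+1) → L) (hodd : Odd (Module.finrank (ratioField x) L))
    (v : Fin k → L) (i0 : Fin k) (hv : v i0 ≠ 0) (a b : L)
    (h : ∀ l : ℕ, ∀ j, aeval (fun i => (v i0 / ((l : L) * p 0 - p i0.succ)) * p i +
      (Fin.cons 0 v : Fin (k + 1) → L) i) (φ j) =
      ((v i0 / ((l : L) * p 0 - p i0.succ)) ^ 2 + (v i0 / ((l : L) * p 0 - p i0.succ)) * a + b) *
        x j) : False := by
  classical
  have hch : CharZero L := charZero_of_injective_algebraMap (algebraMap ℂ L).injective
  have hp0 : p 0 ≠ 0 := by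
    intro h0
    have h1 := hp 1 (X 0) (isHomogeneous_X _ _) (by rw [aeval_X, h0])
    exact X_ne_zero _ h1
  have hden : ∀ l : ℕ, (l : L) * p 0 - p i0.succ ≠ 0 := by
    intro l h0
    have hhom : (C (l : E) * X 0 - X i0.succ : MvPolynomial (Fin (k + 1)) E).IsHomogeneous 1 := by
      refine IsHomogeneous.sub ?_ (isHomogeneous_X _ _)
      have h1 := (isHomogeneous_C (Fin (k + 1)) (l : E)).mul (isHomogeneous_X E (0 : Fin (k + 1)))
      rwa [zero_add] at h1
    have h1 := hp 1 _ hhom (by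
      rw [map_sub, map_mul, aeval_X, aeval_X, aeval_C, map_natCast]
      exact h0)
    have h2 := congrArg (eval (Pi.single i0.succ 1 : Fin (k + 1) → E)) h1
    rw [map_sub, map_mul, eval_X, eval_X, eval_C, map_zero, Pi.single_eq_same,
      Pi.single_eq_of_ne (Fin.succ_ne_zero i0).symm] at h2
    simp at h2
  obtain ⟨s, hs⟩ : ∃ s : ℕ → L, ∀ l, s l = v i0 / ((l : L) * p 0 - p i0.succ) :=
    ⟨_, fun _ => rfl⟩
  have hs0 : ∀ l, s l ≠ 0 := by
    intro l
    rw [hs]
    exact div_ne_zero hv (hden l)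
  have hsp : ∀ l, s l * p i0.succ + v i0 = (l : L) * (s l * p 0) := by
    intro l
    rw [hs]
    field_simp [hden l]
    ring
  have hsinj : ∀ l l', l ≠ l' → s l ≠ s l' := by
    intro l l' hll h1
    have h2 := hsp l
    have h3 := hsp l'
    rw [h1] at h2
    have h4 : ((l : L) - (l' : L)) * (s l' * p 0) = 0 := by linear_combination h3 - h2
    rcases mul_eq_zero.1 h4 with h5 | h5
    · apply hll
      rw [sub_eq_zero] at h5
      exact_mod_cast h5
    · exact (mul_ne_zero (hs0 l') hp0) h5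
  have hl : ∃ l, s l ^ 2 + s l * a + b ≠ 0 := by
    by_contra hcon
    push Not at hcon
    have e0 := hcon 0
    have e1 := hcon 1
    have e2 := hcon 2
    have h01 := sub_ne_zero.2 (hsinj 0 1 (by norm_num))
    have h02 := sub_ne_zero.2 (hsinj 0 2 (by norm_num))
    have h12 := sub_ne_zero.2 (hsinj 1 2 (by norm_num))
    have f1 : s 0 + s 1 + a = 0 := by
      apply mul_left_cancel₀ h01
      linear_combination e0 - e1
    have f2 : s 0 + s 2 + a = 0 := by
      apply mul_left_cancel₀ h02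
      linear_combination e0 - e2
    apply h12
    linear_combination f1 - f2
  obtain ⟨l, hl⟩ := hl
  obtain ⟨u, hu⟩ : ∃ u : Fin (k + 1) → L, u = fun i => s l * p i +
    (Fin.cons 0 v : Fin (k + 1) → L) i := ⟨_, rfl⟩
  have hu0 : u 0 = s l * p 0 := by
    rw [hu]
    exact add_zero _
  have hφu : ∀ j, aeval u (φ j) = (s l ^ 2 + s l * a + b) * x j := by
    intro j
    rw [hu, hs]
    exact h l j
  obtain ⟨y, hy⟩ := K5_ratio φ hφ u 0 i0.succ (Fin.succ_ne_zero i0)
    (by rw [hu0]; exact mul_ne_zero (hs0 l) hp0) (l : E) (by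
      rw [hu0, map_natCast, hu]
      exact hsp l)
  refine K5_small (m := m) (k := k + 1 - 2) (by omega) p hp x hodd y ?_
  intro i j
  have h1 := hy i j
  rw [hφu, hφu, mul_div_mul_left _ _ hl] at h1
  exact isAlgebraic_algebraMap (⟨x i / x j, h1⟩ : IntermediateField.adjoin E (Set.range y))

theorem quad_many (hm : 1 ≤ m) {F : MvPolynomial (Fin (m+1+1)) ℂ} (hF : VG F)
    (φ : Fin (m+1+1) → MvPolynomial (Fin (k + 1)) E)
    (hφ : ∀ j, (φ j).IsHomogeneous 2) (p : Fin (k + 1) → L) (hp : GenE E p)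
    (x : Fin (m+1+1) → L) (hxd : x = fun j => aeval p (φ j)) (hx : HG F x)
    (hcond : m + 3 ≤ 2 * (k + 1)) : ¬ Odd (Module.finrank (ratioField x) L) := by
  classical
  intro hodd
  have hk : 1 ≤ k := by omega
  have hinfL : Infinite L := Infinite.of_injective _ (algebraMap ℂ L).injective
  have h0 : aeval φ F = 0 := by
    refine hp (2 * 3) _ (hF.1.aeval _ hφ) ?_
    have h2 : aeval x F = ((aeval p : MvPolynomial (Fin (k + 1)) E →ₐ[E] L).restrictScalars ℂ)
        (aeval φ F) := by
      rw [MvPolynomial.comp_aeval_apply, hxd]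
      rfl
    rw [(hx 3 F hF.1).2 dvd_rfl] at h2
    exact h2.symm
  have hx0 : x 0 ≠ 0 := HG_zero hF hx
  have hGx : Gp F (ev x) := Gp_ev (N := m+1) hF.1 x hx0 hx
  have hodd' : Odd (fd (ev x)) := by
    rw [fd_ev (N := m+1) x hx0]
    exact hodd
  obtain ⟨q, hq⟩ : ∃ q : Fin (k + 1) ⊕ Unit ⊕ (Σ j : Fin (m+1+1), (φ j).support) → L,
    q = Sum.elim p (Sum.elim (fun _ => x 0)
      (fun s => algebraMap E L (coeff s.2.1 (φ s.1)))) := ⟨_, rfl⟩
  obtain ⟨M, O, c, X, hM, hcL, hXL, hcr, h2, hinf, hP, htr⟩ := K3_place hm hF (ev x)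
    (fun a => by rw [ev_apply, aeval_C]) hGx hodd' q
  have hpM : ∀ i, p i ∈ M := by
    intro i
    have h1 := hM (Sum.inl i)
    rwa [hq] at h1
  have hxM : x 0 ∈ M := by
    have h1 := hM (Sum.inr (Sum.inl ()))
    rwa [hq] at h1
  have hcM : ∀ j, ∀ d ∈ (φ j).support, algebraMap E L (coeff d (φ j)) ∈ M := by
    intro j d hd
    have h1 := hM (Sum.inr (Sum.inr ⟨j, ⟨d, hd⟩⟩))
    rwa [hq] at h1
  choose φM hφM1 hφM2 using fun j => K7_descent M (φ j) (hφ j) (hcM j)
  obtain ⟨pM, hpMd⟩ : ∃ pM : Fin (k + 1) → M, ∀ i, (pM i : L) = p i :=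
    ⟨fun i => ⟨p i, hpM i⟩, fun _ => rfl⟩
  obtain ⟨μ, hμ⟩ : ∃ μ : M, (μ : L) = (x 0)⁻¹ := ⟨⟨(x 0)⁻¹, M.inv_mem hxM⟩, rfl⟩
  have hμ0 : (μ : L) ≠ 0 := by
    rw [hμ]
    exact inv_ne_zero hx0
  have hch : CharZero M := by
    refine ⟨fun a b hab => ?_⟩
    have h1 : ((a : M) : L) = ((b : M) : L) := congrArg Subtype.val hab
    have h3 : CharZero L := charZero_of_injective_algebraMap (algebraMap ℂ L).injective
    push_cast at h1
    exact_mod_cast h1
  have hinfM : Infinite M := inferInstance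
  have hXL' : ∀ i, ((X i : M) : L) = (x 0)⁻¹ * x i := by
    intro i
    rw [hXL, yh_ev (N := m+1) x hx0]
    rfl
  have hX0 : X 0 = 1 := by
    apply Subtype.ext
    apply Subtype.ext
    rw [hXL', inv_mul_cancel₀ hx0]
    rfl
  have hXφ : ∀ j, (X j : M) = μ * eval pM (φM j) := by
    intro j
    apply Subtype.ext
    rw [hXL']
    change _ = (μ : L) * ((eval pM (φM j) : M) : L)
    rw [hμ, hφM2, hxd]
    simp only [hpMd]
  have hcc : cm M.subtype (cm O.subtype c) = cL L F := by
    funext i j l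
    exact hcL i j l
  -- the cubic form vanishes on the image of `φ`
  have hFφ : ∀ u : Fin (k + 1) → M, Fc (cm O.subtype c) (fun j => μ * eval u (φM j)) = 0 := by
    intro u
    have h1 : (fun j => μ * eval u (φM j)) = μ • fun j => eval u (φM j) := rfl
    rw [h1, Fc_smul]
    have h3 : Fc (cm O.subtype c) (fun j => eval u (φM j)) = 0 := by
      apply Subtype.ext
      have h4 : Fc (cm M.subtype (cm O.subtype c)) (fun j => ((eval u (φM j) : M) : L)) =
        ((Fc (cm O.subtype c) (fun j => eval u (φM j)) : M) : L) :=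
        Fc_cm M.subtype (fun j => eval u (φM j))
      rw [hcc] at h4
      simp only [hφM2] at h4
      rw [fc_phi hF φ h0] at h4
      exact h4.symm
    rw [h3, mul_zero]
  -- the maps
  obtain ⟨G, hG⟩ : ∃ G : (Fin k → M) → (Fin (m+1+1) → M), ∀ v, G v = fun j =>
    μ * eval (Fin.cons 0 v : Fin (k + 1) → M) (φM j) := ⟨_, fun _ => rfl⟩
  obtain ⟨Γ, hΓ⟩ : ∃ Γ : (Fin k → M) → (Fin k → M) → (Fin (m+1+1) → M), ∀ v w, Γ v w = fun j =>
    μ * aeval (Fin.cons 0 v : Fin (k + 1) → M) (Bf (φM j) (Fin.cons 0 w : Fin (k + 1) → M)) :=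
    ⟨_, fun _ _ => rfl⟩
  have hlin : ∀ (v : Fin k → M) j, aeval (Fin.cons 0 v : Fin (k + 1) → M) (Bf (φM j) pM) =
      ∑ i, v i * eval (Pi.single i.succ 1 : Fin (k + 1) → M) (Bf (φM j) pM) := by
    intro v j
    rw [lin_sum (Bf_homogeneous (hφM1 j) pM), Fin.sum_univ_succ, Fin.cons_zero, zero_mul, zero_add]
    rfl
  let β : (Fin k → M) →ₗ[M] (Fin (m+1+1) → M) :=
    { toFun := fun v j => μ * ∑ i, v i * eval (Pi.single i.succ 1 : Fin (k + 1) → M)
        (Bf (φM j) pM)
      map_add' := by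
        intro v w
        funext j
        simp only [Pi.add_apply, add_mul, Finset.sum_add_distrib, mul_add]
      map_smul' := by
        intro a v
        funext j
        simp only [Pi.smul_apply, smul_eq_mul, RingHom.id_apply, Finset.mul_sum]
        exact Finset.sum_congr rfl fun i _ => by ring }
  have hβ : ∀ v j, β v j = μ * aeval (Fin.cons 0 v : Fin (k + 1) → M) (Bf (φM j) pM) := by
    intro v j
    rw [hlin]
    rfl
  -- the expansion
  have hexp : ∀ (v : Fin k → M) (s : M), s ^ 2 • (fun i => (X i : M)) + s • β v + G v =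
      fun j => μ * eval (fun i => s * pM i + (Fin.cons 0 v : Fin (k + 1) → M) i) (φM j) := by
    intro v s
    funext j
    have h1 := quad_expand (A := M) (hφM1 j) pM (Fin.cons 0 v : Fin (k + 1) → M) s
    have h3 : aeval (fun i => s * algebraMap M M (pM i) + (Fin.cons 0 v : Fin (k + 1) → M) i)
        (φM j) = eval (fun i => s * pM i + (Fin.cons 0 v : Fin (k + 1) → M) i) (φM j) := rfl
    have h4 : aeval (Fin.cons 0 v : Fin (k + 1) → M) (φM j) =
        eval (Fin.cons 0 v : Fin (k + 1) → M) (φM j) := rfl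
    rw [h3, h4] at h1
    rw [h1]
    simp only [Pi.add_apply, Pi.smul_apply, smul_eq_mul]
    rw [hXφ, hβ, hG]
    change _ = μ * (s ^ 2 * eval pM (φM j) + _ + _)
    ring
  have hid : ∀ v (s : M), Fc (cm O.subtype c) (s ^ 2 • (fun i => (X i : M)) + s • β v + G v) = 0 := by
    intro v s
    rw [hexp]
    exact hFφ _
  have hmain := K6_main O c hcr h2 hinf X hX0 hP β G Γ ?_ ?_ hid ?_ ?_ (by omega)
  · omega
  · -- G 0
    rw [hG]
    funext j
    have h1 := aeval_smul_homog (L := M) (hφM1 j) 0 (0 : Fin (k + 1) → M)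
    rw [zero_pow (by norm_num), zero_mul] at h1
    have h3 : (fun i => 0 * (0 : Fin (k + 1) → M) i) =
        (Fin.cons 0 (0 : Fin k → M) : Fin (k + 1) → M) := by
      funext i
      rw [zero_mul]
      refine Fin.cases ?_ (fun i => ?_) i
      · rw [Fin.cons_zero]
      · rw [Fin.cons_succ]
        rfl
    rw [h3] at h1
    have h4 : eval (Fin.cons 0 (0 : Fin k → M) : Fin (k + 1) → M) (φM j) = 0 := h1
    rw [h4, mul_zero]
    rfl
  · -- expansion of G
    intro v w l
    rw [hG, hG, hG, hΓ]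
    funext j
    have h1 := quad_expand (A := M) (hφM1 j) (Fin.cons 0 w : Fin (k + 1) → M)
      (Fin.cons 0 v : Fin (k + 1) → M) l
    have h3 : (fun i => l * algebraMap M M ((Fin.cons 0 w : Fin (k + 1) → M) i) +
        (Fin.cons 0 v : Fin (k + 1) → M) i) = (Fin.cons 0 (v + l • w) : Fin (k + 1) → M) := by
      funext i
      refine Fin.cases ?_ (fun i => ?_) i
      · rw [Fin.cons_zero, Fin.cons_zero, Fin.cons_zero, map_zero, mul_zero, add_zero]
      · rw [Fin.cons_succ, Fin.cons_succ, Fin.cons_succ, add_comm]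
        rfl
    rw [h3] at h1
    have h4 : eval (Fin.cons 0 (v + l • w) : Fin (k + 1) → M) (φM j) =
      l ^ 2 * eval (Fin.cons 0 w : Fin (k + 1) → M) (φM j) +
        l * aeval (Fin.cons 0 v : Fin (k + 1) → M) (Bf (φM j) (Fin.cons 0 w : Fin (k + 1) → M)) +
        eval (Fin.cons 0 v : Fin (k + 1) → M) (φM j) := h1
    simp only [Pi.add_apply, Pi.smul_apply, smul_eq_mul]
    rw [h4]
    ring
  · -- claim A
    intro v hv g z hg hz heq
    obtain ⟨i0, hi0⟩ := Function.ne_iff.1 hv
    obtain ⟨vL, hvL⟩ : ∃ vL : Fin (k + 1) → L, vL = fun i =>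
      (((Fin.cons 0 v : Fin (k + 1) → M) i : M) : L) := ⟨_, rfl⟩
    have hGv : ∀ j, (μ : L) * aeval vL (φ j) = (g : L) * ((z j : M) : L) := by
      intro j
      have h1 := congrFun heq j
      rw [hG] at h1
      have h3 := congrArg (fun w : M => (w : L)) h1
      change (μ : L) * ((eval _ (φM j) : M) : L) = (g : L) * ((z j : M) : L) at h3
      rw [hφM2] at h3
      rw [hvL]
      exact h3
    obtain ⟨y, hy⟩ := K5_ratio φ hφ vL i0.succ 0 (Fin.succ_ne_zero i0).symm (by
      rw [hvL]
      intro h1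
      apply hi0
      apply Subtype.ext
      exact h1) (0 : E) (by
      rw [map_zero, zero_mul, hvL]
      rfl)
    have hz0 : IsLocalRing.residue O (z 0) = 1 := by
      rw [hz, hX0, map_one]
    have hu : IsUnit (z 0) := by
      by_contra h6
      have h7 : IsLocalRing.residue O (z 0) = 0 := by
        rw [IsLocalRing.residue_eq_zero_iff, IsLocalRing.mem_maximalIdeal, mem_nonunits_iff]
        exact h6
      rw [hz0] at h7
      exact one_ne_zero h7
    obtain ⟨u, hu⟩ := hu
    have huL : ((((u⁻¹ : Oˣ) : O) : M) : L) * ((z 0 : M) : L) = 1 := by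
      have h1 : (((u⁻¹ : Oˣ) : O) * z 0 : O) = 1 := by rw [← hu, Units.inv_mul]
      exact congrArg (fun w : O => ((w : M) : L)) h1
    have hgL : (g : L) ≠ 0 := by
      intro h1
      exact hg (Subtype.ext h1)
    have hφ0 : aeval vL (φ 0) ≠ 0 := by
      intro h1
      have h3 := hGv 0
      rw [h1, mul_zero] at h3
      have h4 : ((z 0 : M) : L) = 0 := (mul_eq_zero.1 h3.symm).resolve_left hgL
      rw [h4, mul_zero] at huL
      exact zero_ne_one huL
    have halg := htr (fun j => ((u⁻¹ : Oˣ) : O) * z j) (by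
      intro j
      rw [map_mul, hz j]
      have h6 : IsLocalRing.residue O ((u⁻¹ : Oˣ) : O) * IsLocalRing.residue O (z 0) = 1 := by
        rw [← map_mul, ← hu, Units.inv_mul, map_one]
      rw [hz0, mul_one] at h6
      rw [h6, one_mul])
      ((IntermediateField.adjoin E (Set.range y)).restrictScalars ℂ) (by
      intro j
      have h1 := hy j 0
      have h3 : aeval vL (φ j) / aeval vL (φ 0) =
          ((((u⁻¹ : Oˣ) : O) : M) : L) * ((z j : M) : L) := by
        rw [div_eq_iff hφ0]
        apply mul_left_cancel₀ hμ0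
        have h4 := hGv j
        have h5 := hGv 0
        linear_combination h4 - ((((u⁻¹ : Oˣ) : O) : M) : L) * ((z j : M) : L) * h5 -
          (g : L) * ((z j : M) : L) * huL
      rw [h3] at h1
      exact h1)
    refine K5_small (m := m) (k := k + 1 - 2) (by omega) p hp x hodd y ?_
    intro i j
    have h1 := halg ((X i : M) / (X j : M))
    have h3 : (((X i : M) / (X j : M) : M) : L) = x i / x j := by
      have h4 : (((X i : M) / (X j : M) : M) : L) = ((X i : M) : L) / ((X j : M) : L) := rfl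
      rw [h4, hXL', hXL', mul_div_mul_left _ _ (inv_ne_zero hx0)]
    rw [h3] at h1
    exact h1
  · -- claim B
    intro v hv a heq
    obtain ⟨i0, hi0⟩ := Function.ne_iff.1 hv
    obtain ⟨XM, hXM⟩ : ∃ XM : Fin (m+1+1) → M, XM = fun i => (X i : M) := ⟨_, rfl⟩
    rw [← hXM] at heq
    obtain ⟨e6, -, e4, -, e2, -, -⟩ := st_conic_coeffs (cm O.subtype c) (fun i => (X i : M))
      (β v) (G v) (hid v)
    rw [← hXM] at e6 e4 e2
    have hDXX : Dc (cm O.subtype c) XM XM = 0 := by rw [Dc_self, e6, mul_zero]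
    rw [heq, Dc_smul_left, hDXX, mul_zero, add_zero] at e4
    rw [heq, Dc_smul_left, e4, mul_zero, zero_add] at e2
    have hcast : ∀ u w : Fin (m+1+1) → M, Dc (cL L F) (fun i => (u i : L)) (fun i => (w i : L)) =
        ((Dc (cm O.subtype c) u w : M) : L) := by
      intro u w
      rw [← hcc]
      exact Dc_cm M.subtype u w
    have hXx : (fun i => (XM i : L)) = (x 0)⁻¹ • x := by
      funext i
      rw [hXM]
      exact hXL' i
    have h1 := hcast XM (G v)
    have h3 := hcast (G v) XM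
    rw [hXx, Dc_smul_left, e4] at h1
    rw [hXx, Dc_smul_right, e2] at h3
    obtain ⟨b, hb⟩ := star_ev (N := m+1) (by omega) hF x hx0 hGx hodd' (fun i => (G v i : L))
      ((mul_eq_zero.1 h1).resolve_left (pow_ne_zero 2 (inv_ne_zero hx0)))
      ((mul_eq_zero.1 h3).resolve_left (inv_ne_zero hx0))
    refine K7_line φ hφ hk p hp x hodd (fun i => (v i : L)) i0 ?_ (a : L) (b * x 0) ?_
    · intro h5
      apply hi0
      exact Subtype.ext h5
    · intro l j
      obtain ⟨s, hs⟩ : ∃ s : M, s = v i0 / ((l : M) * pM 0 - pM i0.succ) := ⟨_, rfl⟩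
      have hsL : (s : L) = (v i0 : L) / ((l : L) * p 0 - p i0.succ) := by
        rw [hs, ← hpMd, ← hpMd]
        push_cast
        rfl
      rw [← hsL]
      have h5 := congrFun (hexp v s) j
      rw [← hXM, heq, hXM] at h5
      have h6 := congrArg (fun w : M => (w : L)) h5
      have h7 : (((s ^ 2 • (fun i => (X i : M)) + s • a • (fun i => (X i : M)) + G v : 
          Fin (m+1+1) → M) j : M) : L) = (s : L) ^ 2 * ((X j : M) : L) +
          (s : L) * ((a : L) * ((X j : M) : L)) + (G v j : L) := rfl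
      have h8 : ((μ * eval (fun i => s * pM i + (Fin.cons 0 v : Fin (k + 1) → M) i) (φM j) : M) :
          L) = (μ : L) * ((eval (fun i => s * pM i + (Fin.cons 0 v : Fin (k + 1) → M) i)
            (φM j) : M) : L) := rfl
      rw [h7, h8, hφM2, hXL', hμ] at h6
      have h9 : (G v j : L) = b * x j := congrFun hb j
      rw [h9] at h6
      have h10 : (fun i => ((s * pM i + (Fin.cons 0 v : Fin (k + 1) → M) i : M) : L)) =
          fun i => (s : L) * p i + (Fin.cons 0 (fun i => (v i : L)) : Fin (k + 1) → L) i := by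
        funext i
        refine Fin.cases ?_ (fun i => ?_) i
        · rw [Fin.cons_zero, Fin.cons_zero, ← hpMd]
          rfl
        · rw [Fin.cons_succ, Fin.cons_succ, ← hpMd]
          rfl
      rw [h10] at h6
      apply mul_left_cancel₀ (inv_ne_zero hx0)
      rw [← h6]
      field_simp

end main

end MP2619.K
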