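import Mathlib

/-!
Row K2: anisotropy at the generic point of the Fermat cubic in characteristic two, over separable
extensions, by derivations.
-/

set_option autoImplicit false

namespace MP2619.K

open MvPolynomial TensorProduct

/-- Every element of the field generated by the image of a domain is a quotient. -/
theorem K2_frac {S L : Type*} [CommRing S] [IsDomain S] [Field L] (ρ : S →+* L)
    (hρ : Function.Injective ρ) :
    @IsFractionRing S _ (Subfield.closure (Set.range ρ)) _
      (ρ.codRestrict (Subfield.closure (Set.range ρ))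
        (fun g => Subfield.subset_closure ⟨g, rfl⟩)).toAlgebra := by
  let χ : S →+* Subfield.closure (Set.range ρ) :=
    ρ.codRestrict _ (fun g => Subfield.subset_closure ⟨g, rfl⟩)
  let _ : Algebra S (Subfield.closure (Set.range ρ)) := χ.toAlgebra
  have hinj : Function.Injective χ := fun a b h => hρ (congrArg Subtype.val h)
  have : FaithfulSMul S (Subfield.closure (Set.range ρ)) :=
    (faithfulSMul_iff_algebraMap_injective _ _).mpr hinj
  refine IsFractionRing.of_field _ _ fun z => ?_
  have hz : (z : L) ∈ Subfield.closure (Set.range ρ) := z.2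
  rw [Subfield.mem_closure_iff] at hz
  have hcl : Subring.closure (Set.range ρ) = ρ.range := by
    rw [← RingHom.coe_range, Subring.closure_eq]
  rw [hcl] at hz
  obtain ⟨y1, ⟨r, hr⟩, y2, ⟨t, ht⟩, hy⟩ := hz
  refine ⟨r, t, ?_⟩
  apply Subtype.ext
  have h3 : ((χ r / χ t : Subfield.closure (Set.range ρ)) : L) = ρ r / ρ t := rfl
  change (z : L) = ((χ r / χ t : Subfield.closure (Set.range ρ)) : L)
  rw [h3, hr, ht, hy]

theorem K2_sep {K L : Type*} [Field K] [Field L] [Algebra K L] (h2 : (2 : K) = 0)
    (hodd : Odd (Module.finrank K L)) : Algebra.IsSeparable K L := by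
  have : CharP K 2 := CharTwo.of_one_ne_zero_of_two_eq_zero one_ne_zero h2
  have : ExpChar K 2 := ExpChar.prime Nat.prime_two
  have hfin : FiniteDimensional K L := by
    refine Module.finite_of_finrank_pos ?_
    exact hodd.pos
  rw [← Field.finSepDegree_eq_finrank_iff]
  have h1 := Field.finSepDegree_mul_finInsepDegree K L
  obtain ⟨n, hn⟩ := finInsepDegree_eq_pow K L 2
  rw [hn] at h1
  have h3 : n = 0 := by
    by_contra hne
    have h4 : Even (2 ^ n) := (Nat.even_pow.2 ⟨even_two, hne⟩)
    have h5 : Even (Module.finrank K L) := by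
      rw [← h1]
      exact h4.mul_left _
    exact (Nat.not_even_iff_odd.2 hodd) h5
  rw [h3, pow_zero, mul_one] at h1
  exact h1

/-- The partial derivatives extend to a separable extension of the rational function field. -/
theorem K2_der {k L : Type*} [Field k] [Field L] (h2 : (2 : L) = 0) {m : ℕ}
    (ρ : MvPolynomial (Fin m) k →+* L) (hρ : Function.Injective ρ)
    (hodd : Odd (Module.finrank (Subfield.closure (Set.range ρ)) L)) (j : Fin m) :
    ∃ D : Derivation ℤ L L, ∀ i, D (ρ (X i)) = if i = j then 1 else 0 := by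
  classical
  let K := Subfield.closure (Set.range ρ)
  let χ : MvPolynomial (Fin m) k →+* K :=
    ρ.codRestrict _ (fun g => Subfield.subset_closure ⟨g, rfl⟩)
  let _ : Algebra (MvPolynomial (Fin m) k) K := χ.toAlgebra
  have hfrac : IsFractionRing (MvPolynomial (Fin m) k) K := K2_frac ρ hρ
  let _ : Algebra (MvPolynomial (Fin m) k) L := ρ.toAlgebra
  let _ : Algebra k L := (ρ.comp C).toAlgebra
  have t1 : IsScalarTower (MvPolynomial (Fin m) k) K L :=
    IsScalarTower.of_algebraMap_eq fun _ => rfl
  have t2 : IsScalarTower k (MvPolynomial (Fin m) k) L :=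
    IsScalarTower.of_algebraMap_eq fun _ => rfl
  have h2K : (2 : K) = 0 := by
    apply Subtype.ext
    exact h2
  have hsep : Algebra.IsSeparable K L := K2_sep h2K hodd
  have e1 : Algebra.FormallyEtale (MvPolynomial (Fin m) k) K :=
    Algebra.FormallyEtale.of_isLocalization (nonZeroDivisors _)
  have e2 : Algebra.FormallyEtale K L := Algebra.FormallyEtale.of_isSeparable K L
  have e3 : Algebra.FormallyEtale (MvPolynomial (Fin m) k) L := Algebra.FormallyEtale.comp _ K _
  let d0 : Derivation k (MvPolynomial (Fin m) k) L :=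
    MvPolynomial.mkDerivation k (fun i => if i = j then (1 : L) else 0)
  let l0 : Ω[MvPolynomial (Fin m) k⁄k] →ₗ[MvPolynomial (Fin m) k] L := d0.liftKaehlerDifferential
  let l1 : L ⊗[MvPolynomial (Fin m) k] Ω[MvPolynomial (Fin m) k⁄k] →ₗ[L] L :=
    l0.liftBaseChange L
  let D1 : Derivation k L L :=
    (l1.comp (KaehlerDifferential.tensorKaehlerEquivOfFormallyEtale k
      (MvPolynomial (Fin m) k) L).symm.toLinearMap).compDer (KaehlerDifferential.D k L)
  refine ⟨D1.restrictScalars ℤ, fun i => ?_⟩
  have h3 : D1 (algebraMap (MvPolynomial (Fin m) k) L (X i)) = d0 (X i) := by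
    change l1 ((KaehlerDifferential.tensorKaehlerEquivOfFormallyEtale k
      (MvPolynomial (Fin m) k) L).symm (KaehlerDifferential.D k L
        (algebraMap (MvPolynomial (Fin m) k) L (X i)))) = _
    rw [KaehlerDifferential.tensorKaehlerEquivOfFormallyEtale_symm_D_algebraMap]
    change l0.liftBaseChange L _ = _
    rw [LinearMap.liftBaseChange_tmul, one_smul]
    exact Derivation.liftKaehlerDifferential_comp_D d0 (X i)
  change D1 (algebraMap (MvPolynomial (Fin m) k) L (X i)) = _
  rw [h3]
  exact mkDerivation_X k _ i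

/-- The fibre over the generic point of the Fermat cubic is anisotropic. -/
theorem K2_P1 {k L : Type*} [Field k] [Field L] (h2 : (2 : L) = 0) {m : ℕ}
    (ρ : MvPolynomial (Fin m) k →+* L) (hρ : Function.Injective ρ)
    (hodd : Odd (Module.finrank (Subfield.closure (Set.range ρ)) L)) (x : Fin (m + 2) → L)
    (h0 : x 0 = 1) (hx : ∀ i : Fin m, x i.succ.succ = ρ (X i)) (hsum : ∑ i, x i ^ 3 = 0)
    (w : Fin (m + 2) → L) (hw : ∑ i, w i ^ 2 * x i = 0) : w = w 0 • x := by
  classical
  have : CharP L 2 := CharTwo.of_one_ne_zero_of_two_eq_zero one_ne_zero h2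
  have hneg : ∀ a : L, a + a = 0 := CharTwo.add_self_eq_zero
  rw [Fin.sum_univ_succ, Fin.sum_univ_succ, h0] at hsum hw
  have hs0 : ((0 : Fin (m + 1)).succ : Fin (m + 2)) = 1 := rfl
  rw [hs0] at hsum hw
  simp only [one_pow, mul_one] at hsum hw
  -- the first affine coordinate is not zero
  have hx1 : x 1 ≠ 0 := by
    intro h1
    rw [h1, zero_pow (by norm_num), zero_add] at hsum
    have h3 : ρ (1 + ∑ i : Fin m, X i ^ 3) = 0 := by
      rw [map_add, map_one, map_sum, ← hsum]
      congr 1
      refine Finset.sum_congr rfl fun i _ => ?_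
      rw [hx, map_pow]
    rw [map_eq_zero_iff _ hρ] at h3
    have h4 := congrArg (coeff 0) h3
    rw [coeff_add, coeff_sum, coeff_zero] at h4
    have h5 : ∀ i : Fin m, coeff 0 (X i ^ 3 : MvPolynomial (Fin m) k) = 0 := by
      intro i
      rw [X_pow_eq_monomial, coeff_monomial, if_neg]
      intro h
      have := DFunLike.congr_fun h i
      simp at this
    simp [h5] at h4
  -- derivations
  have key : ∀ j : Fin m, w j.succ.succ * x 1 = w 1 * x j.succ.succ := by
    intro j
    obtain ⟨D, hD⟩ := K2_der h2 ρ hρ hodd j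
    have hsq : ∀ a : L, D (a ^ 2) = 0 := by
      intro a
      rw [pow_two, Derivation.leibniz]
      exact hneg _
    have h3 : D (x 1 ^ 3) = x 1 ^ 2 * D (x 1) := by
      rw [pow_succ, Derivation.leibniz, hsq, smul_eq_mul, smul_eq_mul, mul_zero, add_zero]
    have h4 : ∀ i : Fin m, D (x i.succ.succ ^ 3) = if i = j then x i.succ.succ ^ 2 else 0 := by
      intro i
      rw [pow_succ, Derivation.leibniz, hsq, smul_eq_mul, smul_eq_mul, mul_zero, add_zero, hx, hD]
      split_ifs
      · rw [mul_one]
      · rw [mul_zero]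
    have h5 : ∀ i : Fin m, D (w i.succ.succ ^ 2 * x i.succ.succ) =
        if i = j then w i.succ.succ ^ 2 else 0 := by
      intro i
      rw [Derivation.leibniz, hsq, smul_eq_mul, smul_eq_mul, mul_zero, add_zero, hx, hD]
      split_ifs
      · rw [mul_one]
      · rw [mul_zero]
    have e1 := congrArg D hsum
    rw [map_add, map_add, Derivation.map_one_eq_zero, zero_add, h3, map_sum, map_zero,
      Finset.sum_congr rfl (fun i _ => h4 i), Finset.sum_ite_eq' , if_pos (Finset.mem_univ _)] at e1
    have e2 := congrArg D hw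
    rw [map_add, map_add, hsq, zero_add, Derivation.leibniz, hsq, smul_zero, add_zero, map_sum,
      map_zero, Finset.sum_congr rfl (fun i _ => h5 i), Finset.sum_ite_eq',
      if_pos (Finset.mem_univ _), smul_eq_mul] at e2
    have e3 : (w j.succ.succ * x 1) ^ 2 = (w 1 * x j.succ.succ) ^ 2 := by
      linear_combination x 1 ^ 2 * e2 - w 1 ^ 2 * e1
    exact CharTwo.sq_injective e3
  obtain ⟨r, hr⟩ : ∃ r, r = w 1 / x 1 := ⟨_, rfl⟩
  have hw1 : w 1 = r * x 1 := by
    rw [hr, div_mul_cancel₀ _ hx1]
  have hwj : ∀ j : Fin m, w j.succ.succ = r * x j.succ.succ := by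
    intro j
    have h3 := key j
    rw [hw1, mul_right_comm] at h3
    exact mul_right_cancel₀ hx1 h3
  have hw0 : w 0 = r := by
    apply CharTwo.sq_injective
    have h3 : ∑ i : Fin m, w i.succ.succ ^ 2 * x i.succ.succ =
        r ^ 2 * ∑ i : Fin m, x i.succ.succ ^ 3 := by
      rw [Finset.mul_sum]
      refine Finset.sum_congr rfl fun i _ => ?_
      rw [hwj]
      ring
    rw [h3, hw1] at hw
    change w 0 ^ 2 = r ^ 2
    linear_combination hw - r ^ 2 * hsum
  funext i
  refine Fin.cases ?_ (fun i => ?_) i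
  · rw [Pi.smul_apply, h0, smul_eq_mul, mul_one]
  · refine Fin.cases ?_ (fun i => ?_) i
    · rw [Pi.smul_apply, smul_eq_mul, hw0, hs0, hw1]
    · rw [Pi.smul_apply, smul_eq_mul, hw0, hwj]

end MP2619.K
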