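import Pool.Agent.Lib.MP_2619d0_ag.K.K7
import Pool.Agent.Lib.MP_2619d0_ag.QTop

/-!
Row K8: the theorem on families of quadratically parametrised varieties.
-/

set_option autoImplicit false

namespace MP2619.K

universe u

open MvPolynomial Pool.Agent.Lib.MP_2619d0_ag Pool.Agent.Lib.MP_2619d0_ag.T MP2619.T

variable {m n : ℕ} {E L : Type u} [Field E] [Field L] [Algebra ℂ E] [Algebra ℂ L] [Algebra E L]
  [IsScalarTower ℂ E L]

theorem quad_final (hm : 1 ≤ m) (hn : 2 ≤ n) {F : MvPolynomial (Fin (m+1+1)) ℂ} (hF : VG F)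
    (k0 : Subfield ℂ) (hk0 : Countable k0)
    (hind : AlgebraicIndependent k0 (fun j : Exp3 (m + 1 + 1) => coeff j.1 F)) {d : ℕ}
    {G : MvPolynomial (Fin (m + 1 + 1)) ℂ} (hG : G.IsHomogeneous d) (hG0 : G ≠ 0)
    (hGk : ∀ e, coeff e G ∈ k0)
    (φ : Fin (m+1+1) → MvPolynomial (Fin n) E)
    (hφ : ∀ j, (φ j).IsHomogeneous 2) (p : Fin n → L) (hp : GenE E p)
    (x : Fin (m+1+1) → L) (hxd : x = fun j => aeval p (φ j)) (hx : HG F x)
    (hcond : m + 3 ≤ 2 * n ∨ ∃ e : Fin n → E, e ≠ 0 ∧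
      (aeval (fun j => eval e (φ j)) G = 0 ∨ ∃ W : Submodule ℂ (Fin (m + 1 + 1) → ℂ),
        2 * Module.finrank ℂ W < m + 1 + 1 ∧ (fun j => eval e (φ j)) ∈ extend E W)) :
    ¬ Odd (Module.finrank (ratioField x) L) := by
  rcases hcond with h | h
  · obtain ⟨k, rfl⟩ : ∃ k, n = k + 1 := ⟨n - 1, by omega⟩
    exact quad_many hm hF φ hφ p hp x hxd hx h
  · exact quad_even hm hn hF k0 hk0 hind hG hG0 hGk φ hφ p hp x hxd hx (Or.inr h)

end MP2619.K
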