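import Mathlib

/-!
Row K1: discrete valuation rings of residue characteristic two in the field of complex numbers.
-/

set_option autoImplicit false

namespace MP2619.K

open MvPolynomial

/-- The localisation of a unique factorisation domain at a prime element. -/
theorem K1_loc {B : Type} [CommRing B] [IsDomain B] [UniqueFactorizationMonoid B] (p : B)
    (hp : Prime p) (hpp : (Ideal.span {p}).IsPrime) :
    IsDiscreteValuationRing (Localization.AtPrime (Ideal.span {p})) := by
  have hle : (Ideal.span {p}).primeCompl ≤ nonZeroDivisors B :=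
    Ideal.primeCompl_le_nonZeroDivisors (Ideal.span {p})
  have hdom : IsDomain (Localization.AtPrime (Ideal.span {p})) :=
    IsLocalization.isDomain_localization hle
  have hinj : Function.Injective (algebraMap B (Localization.AtPrime (Ideal.span {p}))) :=
    IsLocalization.injective _ hle
  apply IsDiscreteValuationRing.ofHasUnitMulPowIrreducibleFactorization
  have hunit : ∀ b : B, ¬ p ∣ b →
      IsUnit (algebraMap B (Localization.AtPrime (Ideal.span {p})) b) := by
    intro b hb
    exact IsLocalization.map_units (Localization.AtPrime (Ideal.span {p}))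
      (⟨b, fun h => hb (Ideal.mem_span_singleton.1 h)⟩ : (Ideal.span {p}).primeCompl)
  have hp1 : algebraMap B (Localization.AtPrime (Ideal.span {p})) p ∈
      IsLocalRing.maximalIdeal (Localization.AtPrime (Ideal.span {p})) :=
    (IsLocalization.AtPrime.to_map_mem_maximal_iff _ (Ideal.span {p}) p).2
      (Ideal.mem_span_singleton_self p)
  have hprime : Prime (algebraMap B (Localization.AtPrime (Ideal.span {p})) p) := by
    have h0 : algebraMap B (Localization.AtPrime (Ideal.span {p})) p ≠ 0 := by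
      rw [Ne, map_eq_zero_iff _ hinj]
      exact hp.ne_zero
    rw [← Ideal.span_singleton_prime h0]
    have h1 := IsLocalization.AtPrime.map_eq_maximalIdeal (Ideal.span {p})
      (Localization.AtPrime (Ideal.span {p}))
    rw [Ideal.map_span, Set.image_singleton] at h1
    rw [h1]
    exact (IsLocalRing.maximalIdeal.isMaximal _).isPrime
  refine ⟨algebraMap B (Localization.AtPrime (Ideal.span {p})) p, hprime.irreducible, ?_⟩
  intro x hx
  obtain ⟨a, s, rfl⟩ := IsLocalization.exists_mk'_eq (Ideal.span {p}).primeCompl x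
  have ha : a ≠ 0 := by
    rintro rfl
    rw [IsLocalization.mk'_zero] at hx
    exact hx rfl
  obtain ⟨n, c, hc, hac⟩ := WfDvdMonoid.max_power_factor ha hp.irreducible
  refine ⟨n, ?_⟩
  have hs : ¬ p ∣ (s : B) := fun h => s.2 (Ideal.mem_span_singleton.2 h)
  obtain ⟨uc, huc⟩ := hunit c hc
  obtain ⟨us, hus⟩ := hunit s hs
  refine ⟨uc * us⁻¹, ?_⟩
  have h1 : IsLocalization.mk' (Localization.AtPrime (Ideal.span {p})) a s *
      algebraMap B (Localization.AtPrime (Ideal.span {p})) s =
      algebraMap B (Localization.AtPrime (Ideal.span {p})) a := IsLocalization.mk'_spec _ a s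
  rw [← hus] at h1
  have h2 : IsLocalization.mk' (Localization.AtPrime (Ideal.span {p})) a s =
      algebraMap B (Localization.AtPrime (Ideal.span {p})) a *
        ((us⁻¹ : (Localization.AtPrime (Ideal.span {p}))ˣ) :
          Localization.AtPrime (Ideal.span {p})) := by
    rw [← h1, mul_assoc, Units.mul_inv, mul_one]
  rw [h2, hac, map_mul, map_pow, ← huc, Units.val_mul, mul_assoc]

theorem K1_aux {A0 Ω S : Type} [CommRing A0] [IsDomain A0] [IsLocalRing A0] [Field Ω]
    [CommRing S] [IsDedekindDomain S] [Algebra A0 S] [Algebra.IsIntegral A0 S] (hf : ¬ IsField A0)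
    (hinj : Function.Injective (algebraMap A0 S)) (g : S →+* Ω)
    (hg : Function.Injective g) :
    ∃ (A : Type) (_ : CommRing A) (_ : IsDomain A) (_ : IsDiscreteValuationRing A)
      (α : A0 →+* A) (β : A →+* Ω), Function.Injective β ∧
      (∀ p, β (α p) = g (algebraMap A0 S p)) ∧
      (∀ p ∈ IsLocalRing.maximalIdeal A0, α p ∈ IsLocalRing.maximalIdeal A) ∧
      ∀ s : S, ∃ a : A, β a = g s := by
  obtain ⟨P, hPmax, hP⟩ := Ideal.exists_ideal_over_maximal_of_isIntegral (S := S)
    (IsLocalRing.maximalIdeal A0) (by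
      rw [(RingHom.injective_iff_ker_eq_bot _).1 hinj]
      exact bot_le)
  have hPp : P.IsPrime := hPmax.isPrime
  have hmem : ∀ p ∈ IsLocalRing.maximalIdeal A0, algebraMap A0 S p ∈ P := by
    intro p hp
    rw [← hP, Ideal.mem_comap] at hp
    exact hp
  have hPbot : P ≠ ⊥ := by
    intro h
    apply hf
    rw [IsLocalRing.isField_iff_maximalIdeal_eq, eq_bot_iff]
    intro p hp
    have h1 := hmem p hp
    rw [h, Ideal.mem_bot, map_eq_zero_iff _ hinj] at h1
    exact h1
  have hdom : IsDomain (Localization.AtPrime P) :=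
    IsLocalization.isDomain_localization P.primeCompl_le_nonZeroDivisors
  have hdvr : IsDiscreteValuationRing (Localization.AtPrime P) :=
    IsLocalization.AtPrime.isDiscreteValuationRing_of_dedekind_domain S hPbot _
  have hAinj : Function.Injective (algebraMap S (Localization.AtPrime P)) :=
    IsLocalization.injective _ P.primeCompl_le_nonZeroDivisors
  have hunit : ∀ y : P.primeCompl, IsUnit (g y) := by
    intro y
    refine isUnit_iff_ne_zero.2 fun h => ?_
    rw [map_eq_zero_iff _ hg] at h
    exact y.2 (h ▸ P.zero_mem)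
  refine ⟨Localization.AtPrime P, inferInstance, hdom, hdvr,
    (algebraMap S (Localization.AtPrime P)).comp (algebraMap A0 S),
    IsLocalization.lift hunit, ?_, ?_, ?_, ?_⟩
  · rw [IsLocalization.lift_injective_iff]
    exact fun x y => ⟨fun h => by rw [hAinj h], fun h => by rw [hg h]⟩
  · intro p
    rw [RingHom.comp_apply, IsLocalization.lift_eq]
  · intro p hp
    rw [RingHom.comp_apply]
    exact (IsLocalization.AtPrime.to_map_mem_maximal_iff _ P _).2 (hmem p hp)
  · intro s
    exact ⟨algebraMap S (Localization.AtPrime P) s, IsLocalization.lift_eq hunit s⟩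

/-- Extension of a discrete valuation ring to a finite extension. -/
theorem K1_ext {A0 Ω : Type} [CommRing A0] [IsDomain A0] [IsDiscreteValuationRing A0] [Field Ω]
    [CharZero Ω] (φ : A0 →+* Ω) (hφ : Function.Injective φ)
    (hΩ : ∀ c : Ω, ∃ p : Polynomial A0, p ≠ 0 ∧ p.eval₂ φ c = 0) (T : Finset Ω) :
    ∃ (A : Type) (_ : CommRing A) (_ : IsDomain A) (_ : IsDiscreteValuationRing A)
      (α : A0 →+* A) (β : A →+* Ω), Function.Injective β ∧ (∀ p, β (α p) = φ p) ∧
      (∀ p ∈ IsLocalRing.maximalIdeal A0, α p ∈ IsLocalRing.maximalIdeal A) ∧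
      ∀ c ∈ T, ∃ a b : A, β b ≠ 0 ∧ c * β b = β a := by
  classical
  let algΩ : Algebra A0 Ω := φ.toAlgebra
  have hinjΩ : Function.Injective (algebraMap A0 Ω) := hφ
  let algK : Algebra (FractionRing A0) Ω :=
    (IsFractionRing.lift (K := FractionRing A0) hinjΩ).toAlgebra
  have tower : IsScalarTower A0 (FractionRing A0) Ω :=
    IsScalarTower.of_algebraMap_eq fun p => (IsFractionRing.lift_algebraMap hinjΩ p).symm
  have hRK : Function.Injective (algebraMap A0 (FractionRing A0)) :=
    IsFractionRing.injective _ _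
  have halg : ∀ c : Ω, IsAlgebraic (FractionRing A0) c := by
    intro c
    obtain ⟨p, hp, hpc⟩ := hΩ c
    have h1 : IsAlgebraic A0 c := ⟨p, hp, hpc⟩
    exact h1.extendScalars hRK
  let K2 : IntermediateField (FractionRing A0) Ω :=
    IntermediateField.adjoin (FractionRing A0) (T : Set Ω)
  have hfin : FiniteDimensional (FractionRing A0) K2 :=
    IntermediateField.finiteDimensional_adjoin fun x _ => (halg x).isIntegral
  have hchar0 : CharZero A0 := by
    refine ⟨fun a b hab => ?_⟩
    have h1 := congrArg φ hab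
    rw [map_natCast, map_natCast] at h1
    exact_mod_cast h1
  have hchar : CharZero (FractionRing A0) :=
    charZero_of_injective_algebraMap hRK
  have hsep : Algebra.IsSeparable (FractionRing A0) K2 := inferInstance
  have hded : IsDedekindDomain (integralClosure A0 K2) :=
    integralClosure.isDedekindDomain A0 (FractionRing A0) K2
  have hfrac : IsFractionRing (integralClosure A0 K2) K2 :=
    integralClosure.isFractionRing_of_finite_extension (FractionRing A0) K2
  have hinjS : Function.Injective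
      (algebraMap A0 (integralClosure A0 K2)) := by
    intro a b hab
    have h1 : algebraMap A0 Ω a = algebraMap A0 Ω b :=
      congrArg (fun z : integralClosure A0 K2 => ((z : K2) : Ω)) hab
    exact hinjΩ h1
  obtain ⟨A, i1, i2, i3, α, β, hβ, hαβ, hX, hS⟩ := K1_aux
    (IsDiscreteValuationRing.not_isField A0) hinjS
    ((algebraMap K2 Ω).comp (algebraMap (integralClosure A0 K2) K2))
    ((algebraMap K2 Ω).injective.comp (IsFractionRing.injective _ _))
  refine ⟨A, i1, i2, i3, α, β, hβ, fun p => hαβ p, hX, ?_⟩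
  intro c hc
  have hcK : c ∈ K2 := IntermediateField.subset_adjoin _ _ (Finset.mem_coe.2 hc)
  obtain ⟨x, y, hy, hxy⟩ := IsFractionRing.div_surjective (integralClosure A0 K2)
    (⟨c, hcK⟩ : K2)
  obtain ⟨a, ha⟩ := hS x
  obtain ⟨b, hb⟩ := hS y
  have hy0 : algebraMap (integralClosure A0 K2) K2 y ≠ 0 := by
    rw [Ne, map_eq_zero_iff _ (IsFractionRing.injective _ _)]
    exact nonZeroDivisors.ne_zero hy
  refine ⟨a, b, ?_, ?_⟩
  · rw [hb, RingHom.comp_apply, Ne, map_eq_zero]
    exact hy0
  · rw [ha, hb, RingHom.comp_apply, RingHom.comp_apply]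
    have h2 : (⟨c, hcK⟩ : K2) * algebraMap (integralClosure A0 K2) K2 y =
        algebraMap (integralClosure A0 K2) K2 x := by
      rw [← hxy, div_mul_cancel₀ _ hy0]
    exact congrArg (algebraMap K2 Ω) h2

theorem K1_indep {J : Type} (a : J → ℂ) (ha : AlgebraicIndependent ℚ a) (δ : J → ℤ) :
    AlgebraicIndependent ℤ (fun j => (a j - δ j) / 2) := by
  have h1 : AlgebraicIndependent ℚ (fun j => (a j - δ j) / 2) := by
    let s : MvPolynomial J ℚ →ₐ[ℚ] MvPolynomial J ℚ :=
      aeval fun j => C (1 / 2) * (X j - C (δ j : ℚ))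
    let s' : MvPolynomial J ℚ →ₐ[ℚ] MvPolynomial J ℚ :=
      aeval fun j => C 2 * X j + C (δ j : ℚ)
    have hss : s'.comp s = AlgHom.id ℚ _ := by
      apply MvPolynomial.algHom_ext
      intro j
      simp only [s, s', AlgHom.comp_apply, aeval_X, map_mul, map_sub, algHom_C, AlgHom.id_apply,
        algebraMap_eq]
      rw [add_sub_cancel_right, ← mul_assoc, ← C_mul]
      norm_num
    have hs : Function.Injective s := by
      intro p q hpq
      have h2 := congrArg s' hpq
      rw [← AlgHom.comp_apply, ← AlgHom.comp_apply, hss] at h2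
      exact h2
    have h3 : (aeval (fun j => (a j - δ j) / 2) : MvPolynomial J ℚ →ₐ[ℚ] ℂ) =
        (aeval a).comp s := by
      apply MvPolynomial.algHom_ext
      intro j
      simp only [s, AlgHom.comp_apply, aeval_X, map_mul, map_sub, algHom_C]
      simp
      ring
    unfold AlgebraicIndependent
    rw [h3]
    exact Function.Injective.comp (g := (aeval a : MvPolynomial J ℚ →ₐ[ℚ] ℂ)) ha hs
  exact h1.restrictScalars (R := ℤ) (K := ℚ) (by
    intro x y hxy
    simpa using hxy)

/-- The discrete valuation ring. -/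
theorem K1_dvr {J : Type} (a : J → ℂ) (ha : AlgebraicIndependent ℚ a) (δ : J → ℤ)
    (T : Finset ℂ) :
    ∃ (A : Type) (_ : CommRing A) (_ : IsDomain A) (_ : IsDiscreteValuationRing A)
      (β : A →+* ℂ), Function.Injective β ∧ (2 : A) ∈ IsLocalRing.maximalIdeal A ∧
      (∀ j, ∃ c : A, β c = a j ∧ c - (δ j : A) ∈ IsLocalRing.maximalIdeal A) ∧
      ∀ c ∈ T, ∃ a b : A, β b ≠ 0 ∧ c * β b = β a := by
  classical
  obtain ⟨a', ha'⟩ : ∃ a' : J → ℂ, a' = fun j => (a j - δ j) / 2 := ⟨_, rfl⟩
  have hind : AlgebraicIndependent ℤ a' := ha' ▸ K1_indep a ha δ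
  obtain ⟨t, ht1, ht2⟩ := exists_isTranscendenceBasis_superset hind.to_subtype_range
  let e : MvPolynomial t ℤ →+* ℂ := (aeval ((↑) : t → ℂ) : MvPolynomial t ℤ →ₐ[ℤ] ℂ).toRingHom
  have he : Function.Injective e := ht2.1
  have hp : Prime (C 2 : MvPolynomial t ℤ) :=
    (MvPolynomial.prime_C_iff t).mpr Int.prime_two
  have hpp : (Ideal.span {(C 2 : MvPolynomial t ℤ)}).IsPrime :=
    (Ideal.span_singleton_prime hp.ne_zero).mpr hp
  have hle : (Ideal.span {(C 2 : MvPolynomial t ℤ)}).primeCompl ≤ nonZeroDivisors _ :=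
    Ideal.primeCompl_le_nonZeroDivisors _
  have hdom : IsDomain (Localization.AtPrime (Ideal.span {(C 2 : MvPolynomial t ℤ)})) :=
    IsLocalization.isDomain_localization hle
  have hdvr : IsDiscreteValuationRing
      (Localization.AtPrime (Ideal.span {(C 2 : MvPolynomial t ℤ)})) := K1_loc _ hp hpp
  have hunit : ∀ y : (Ideal.span {(C 2 : MvPolynomial t ℤ)}).primeCompl, IsUnit (e y) := by
    intro y
    refine isUnit_iff_ne_zero.2 fun h => ?_
    rw [map_eq_zero_iff _ he] at h
    exact y.2 (h ▸ Ideal.zero_mem _)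
  let φ : Localization.AtPrime (Ideal.span {(C 2 : MvPolynomial t ℤ)}) →+* ℂ :=
    IsLocalization.lift hunit
  have hφ1 : ∀ g, φ (algebraMap _ _ g) = e g := fun g => IsLocalization.lift_eq hunit g
  have hlinj : Function.Injective (algebraMap (MvPolynomial t ℤ)
      (Localization.AtPrime (Ideal.span {(C 2 : MvPolynomial t ℤ)}))) :=
    IsLocalization.injective _ hle
  have hφ : Function.Injective φ := by
    rw [IsLocalization.lift_injective_iff]
    exact fun x y => ⟨fun h => by rw [hlinj h], fun h => by rw [he h]⟩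
  obtain ⟨A, i1, i2, i3, α, β, hβ, hαβ, hmax, hT⟩ := K1_ext φ hφ (by
    intro c
    have h1 := ht2.isAlgebraic
    have h2 : IsAlgebraic (Algebra.adjoin ℤ (Set.range ((↑) : t → ℂ))) c := h1.isAlgebraic c
    obtain ⟨p, hp0, hpc⟩ := h2
    let ε : Algebra.adjoin ℤ (Set.range ((↑) : t → ℂ)) ≃ₐ[ℤ] MvPolynomial t ℤ :=
      ht2.1.aevalEquiv.symm
    let θ : Algebra.adjoin ℤ (Set.range ((↑) : t → ℂ)) →+*
        Localization.AtPrime (Ideal.span {(C 2 : MvPolynomial t ℤ)}) :=
      (algebraMap (MvPolynomial t ℤ) _).comp (ε : _ →+* MvPolynomial t ℤ)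
    have hθ : Function.Injective θ := hlinj.comp ε.injective
    refine ⟨p.map θ, (Polynomial.map_ne_zero_iff hθ).2 hp0, ?_⟩
    rw [Polynomial.eval₂_map]
    have h3 : φ.comp θ = algebraMap (Algebra.adjoin ℤ (Set.range ((↑) : t → ℂ))) ℂ := by
      refine RingHom.ext fun z => ?_
      have h4 : φ (θ z) = e (ε z) := hφ1 (ε z)
      rw [RingHom.comp_apply, h4]
      obtain ⟨q, rfl⟩ := ht2.1.aevalEquiv.surjective z
      change e (ht2.1.aevalEquiv.symm (ht2.1.aevalEquiv q)) = _
      rw [AlgEquiv.symm_apply_apply]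
      exact (ht2.1.algebraMap_aevalEquiv q).symm
    rw [h3]
    exact hpc) T
  have h2α : α (algebraMap (MvPolynomial t ℤ) _ (C 2)) = 2 :=
    (congrArg (fun z => α (algebraMap (MvPolynomial t ℤ)
      (Localization.AtPrime (Ideal.span {(C 2 : MvPolynomial t ℤ)})) z))
      (map_ofNat C 2 : (C 2 : MvPolynomial t ℤ) = 2)).trans
      (map_ofNat (α.comp (algebraMap (MvPolynomial t ℤ) _)) 2)
  refine ⟨A, i1, i2, i3, β, hβ, ?_, ?_, hT⟩
  · have h1 : α (algebraMap (MvPolynomial t ℤ) _ (C 2)) ∈ IsLocalRing.maximalIdeal A := by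
      apply hmax
      exact (IsLocalization.AtPrime.to_map_mem_maximal_iff _ _ _).2
        (Ideal.mem_span_singleton_self _)
    rwa [h2α] at h1
  · intro j
    have hj : a' j ∈ t := ht1 ⟨j, rfl⟩
    let c : A := 2 * α (algebraMap (MvPolynomial t ℤ) _ (X ⟨a' j, hj⟩)) + (δ j : A)
    refine ⟨c, ?_, ?_⟩
    · have h1 : β (α (algebraMap (MvPolynomial t ℤ) _ (X ⟨a' j, hj⟩))) = a' j := by
        rw [hαβ, hφ1]
        change (aeval ((↑) : t → ℂ) : MvPolynomial t ℤ →ₐ[ℤ] ℂ) (X ⟨a' j, hj⟩) = _
        rw [aeval_X]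
      change β (2 * α (algebraMap (MvPolynomial t ℤ) _ (X ⟨a' j, hj⟩)) + (δ j : A)) = _
      rw [map_add, map_mul, h1, map_ofNat, map_intCast, ha']
      ring
    · have h1 : α (algebraMap (MvPolynomial t ℤ) _ (C 2)) ∈ IsLocalRing.maximalIdeal A := by
        apply hmax
        exact (IsLocalization.AtPrime.to_map_mem_maximal_iff _ _ _).2
          (Ideal.mem_span_singleton_self _)
      rw [h2α] at h1
      change (2 * α (algebraMap (MvPolynomial t ℤ) _ (X ⟨a' j, hj⟩)) + (δ j : A)) - _ ∈ _
      rw [add_sub_cancel_right]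
      exact Ideal.mul_mem_right _ _ h1

end MP2619.K
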