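import Pool.Agent.Lib.MP_2619d0_ag.K.K6a
import Pool.Agent.Lib.MP_2619d0_ag.T.A4
import Pool.Agent.Lib.MP_2619d0_ag.TOdd

/-!
Row K6: quadratic families through a point which reduces to the generic point of the Fermat cubic.
-/

set_option autoImplicit false

namespace MP2619.K

open Pool.Agent.Lib.MP_2619d0_ag.T Pool.Agent.Lib.MP_2619d0_ag MvPolynomial

theorem K6_Tc {ι R : Type*} [Fintype ι] [DecidableEq ι] [CommRing R] (h2 : (2 : R) = 0)
    (c : ι → ι → ι → R) (hc : ∀ i j k, c i j k = if i = j ∧ j = k then 1 else 0) (x y z : ι → R) :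
    Tc c x y z = 0 := by
  rw [Tc]
  refine Finset.sum_eq_zero fun i _ => Finset.sum_eq_zero fun j _ =>
    Finset.sum_eq_zero fun k _ => ?_
  rw [hc]
  split_ifs with h
  · obtain ⟨rfl, rfl⟩ := h
    linear_combination 3 * x i * y i * z i * h2
  · rw [zero_mul]

/-- extraction of the first coefficient -/
theorem K6_first {ι K : Type*} [Fintype ι] [Field K] [Infinite K] (c : ι → ι → ι → K)
    (a b d p q : ι → K) (h : ∀ l : K, Dc c (a + l • b + l ^ 2 • d) (p + l • q) = 0) :
    Tc c a b p + Dc c a q = 0 := by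
  have h0 : ∀ l : K, Dc c (a + l • b + l ^ 2 • d) (p + l • q) =
      Dc c a p + l * (Tc c a b p + Dc c a q) +
        l ^ 2 * (Tc c a d p + Dc c b p + Tc c a b q) +
        l ^ 3 * (Tc c b d p + Tc c a d q + Dc c b q) +
        l ^ 4 * (Dc c d p + Tc c b d q) + l ^ 5 * Dc c d q := by
    intro l
    have t1 : ∀ y, Tc c a (l • b) y = l * Tc c a b y := by
      intro y
      rw [Tc_comm, Tc_smul_left, Tc_comm]
    have t2 : ∀ y, Tc c a (l ^ 2 • d) y = l ^ 2 * Tc c a d y := by
      intro y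
      rw [Tc_comm, Tc_smul_left, Tc_comm]
    have t3 : ∀ y, Tc c (l • b) (l ^ 2 • d) y = l ^ 3 * Tc c b d y := by
      intro y
      rw [Tc_smul_left, Tc_comm, Tc_smul_left, Tc_comm]
      ring
    rw [Dc_add_left, Dc_add_left, Dc_smul_left, Dc_smul_left, Tc_add_left, Dc_add_right,
      Dc_add_right, Dc_add_right, Dc_smul_right, Dc_smul_right, Dc_smul_right, t1, t2, t3]
    have t4 : ∀ u v, Tc c u v (p + l • q) = Tc c u v p + l * Tc c u v q := by
      intro u v
      rw [Tc_comm', Tc_comm, Tc_add_left, Tc_smul_left, Tc_comm c p, Tc_comm' c u p, Tc_comm c q,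
        Tc_comm' c u q]
    rw [t4, t4, t4]
    ring
  have hP : (Polynomial.C (Dc c a p) + Polynomial.X * Polynomial.C (Tc c a b p + Dc c a q) +
      Polynomial.X ^ 2 * Polynomial.C (Tc c a d p + Dc c b p + Tc c a b q) +
      Polynomial.X ^ 3 * Polynomial.C (Tc c b d p + Tc c a d q + Dc c b q) +
      Polynomial.X ^ 4 * Polynomial.C (Dc c d p + Tc c b d q) +
      Polynomial.X ^ 5 * Polynomial.C (Dc c d q) : Polynomial K) = 0 := by
    apply Polynomial.funext
    intro s
    have h1 := h s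
    rw [h0] at h1
    simp only [Polynomial.eval_add, Polynomial.eval_mul, Polynomial.eval_C, Polynomial.eval_pow,
      Polynomial.eval_X, Polynomial.eval_zero]
    exact h1
  have e1 := congrArg (fun p => Polynomial.coeff p 1) hP
  simp only [Polynomial.coeff_add, Polynomial.coeff_mul_C, Polynomial.coeff_X_pow,
    Polynomial.coeff_X, Polynomial.coeff_C, Polynomial.coeff_zero] at e1
  norm_num at e1
  exact e1

/-- polarisation of an isotropic space of the Fermat cubic -/
theorem K6_polar {K : Type*} [Field K] [Infinite K] (h2 : (2 : K) = 0) {n : ℕ}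
    (T : Submodule K (Fin n → K)) (hT : ∀ t ∈ T, ∑ i, t i ^ 3 = 0) :
    ∀ s ∈ T, ∀ t ∈ T, ∑ i, s i ^ 2 * t i = 0 := by
  intro s hs t ht
  have h1 : ∀ l : K, l * ∑ i, s i ^ 2 * t i + l ^ 2 * ∑ i, s i * t i ^ 2 = 0 := by
    intro l
    have h3 := hT _ (T.add_mem hs (T.smul_mem l ht))
    have h4 : ∀ i, (s + l • t) i ^ 3 = s i ^ 3 + l * (s i ^ 2 * t i) + l ^ 2 * (s i * t i ^ 2) +
        l ^ 3 * t i ^ 3 := by
      intro i
      rw [Pi.add_apply, Pi.smul_apply, smul_eq_mul]
      linear_combination (l * (s i ^ 2 * t i) + l ^ 2 * (s i * t i ^ 2)) * h2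
    simp only [h4, Finset.sum_add_distrib, ← Finset.mul_sum] at h3
    rw [hT s hs, hT t ht] at h3
    linear_combination h3
  have hP : (Polynomial.X * Polynomial.C (∑ i, s i ^ 2 * t i) +
      Polynomial.X ^ 2 * Polynomial.C (∑ i, s i * t i ^ 2) : Polynomial K) = 0 := by
    apply Polynomial.funext
    intro l
    simp only [Polynomial.eval_add, Polynomial.eval_mul, Polynomial.eval_C, Polynomial.eval_pow,
      Polynomial.eval_X, Polynomial.eval_zero]
    exact h1 l
  have e1 := congrArg (fun p => Polynomial.coeff p 1) hP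
  simp only [Polynomial.coeff_add, Polynomial.coeff_mul_C, Polynomial.coeff_X_pow,
    Polynomial.coeff_X, Polynomial.coeff_zero] at e1
  norm_num at e1
  exact e1

section main

variable {M : Type*} [Field M] (O : ValuationSubring M) {N : ℕ}

/-- The values of the forms at integral vectors. -/
theorem K6_Dc (c : Fin N → Fin N → Fin N → O) (x y : Fin N → O) :
    Dc (cm O.subtype c) (fun i => (x i : M)) (fun i => (y i : M)) = ((Dc c x y : O) : M) :=
  Dc_cm O.subtype x y

theorem K6_resD (c : Fin N → Fin N → Fin N → O)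
    (hc : ∀ i j l, IsLocalRing.residue O (c i j l) = if i = j ∧ j = l then 1 else 0)
    (h2 : (2 : IsLocalRing.ResidueField O) = 0) (x y : Fin N → O) :
    IsLocalRing.residue O (Dc c x y) =
      ∑ i, IsLocalRing.residue O (x i) ^ 2 * IsLocalRing.residue O (y i) := by
  rw [← Dc_cm, A4_Dc h2 (cm (IsLocalRing.residue O) c) hc]

theorem K6_main [Infinite M] {k : ℕ} (c : Fin (N + 1) → Fin (N + 1) → Fin (N + 1) → O)
    (hc : ∀ i j l, IsLocalRing.residue O (c i j l) = if i = j ∧ j = l then 1 else 0)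
    (h2 : (2 : IsLocalRing.ResidueField O) = 0) (hinf : Infinite (IsLocalRing.ResidueField O))
    (x : Fin (N + 1) → O) (hx0 : x 0 = 1)
    (hP : ∀ w : Fin (N + 1) → IsLocalRing.ResidueField O,
      ∑ i, w i ^ 2 * IsLocalRing.residue O (x i) = 0 →
        w = w 0 • fun i => IsLocalRing.residue O (x i))
    (β : (Fin k → M) →ₗ[M] (Fin (N + 1) → M)) (G : (Fin k → M) → (Fin (N + 1) → M))
    (Γ : (Fin k → M) → (Fin k → M) → (Fin (N + 1) → M)) (hG0 : G 0 = 0)
    (hΓ : ∀ v w (l : M), G (v + l • w) = G v + l • Γ v w + l ^ 2 • G w)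
    (hid : ∀ v (s : M), Fc (cm O.subtype c) (s ^ 2 • (fun i => (x i : M)) + s • β v + G v) = 0)
    (hA : ∀ v ≠ 0, ∀ (g : M) (z : Fin (N + 1) → O), g ≠ 0 →
      (∀ i, IsLocalRing.residue O (z i) = IsLocalRing.residue O (x i)) →
        G v ≠ g • fun i => (z i : M))
    (hB : ∀ v ≠ 0, ∀ a : M, β v ≠ a • fun i => (x i : M))
    (hN : 1 ≤ N) : 2 * k + 2 ≤ N + 1 := by
  classical
  obtain ⟨cM, hcM⟩ : ∃ cM, cM = cm O.subtype c := ⟨_, rfl⟩
  rw [← hcM] at hid
  have hD : ∀ a b : Fin (N + 1) → O, Dc cM (fun i => (a i : M)) (fun i => (b i : M)) =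
      ((Dc c a b : O) : M) := by
    intro a b
    rw [hcM]
    exact K6_Dc O c a b
  have hres := K6_resD O c hc h2
  have hT0 : ∀ a b d : Fin (N + 1) → O, IsLocalRing.residue O (Tc c a b d) = 0 := by
    intro a b d
    rw [← Tc_cm, K6_Tc h2 (cm (IsLocalRing.residue O) c) hc]
  rcases Nat.eq_zero_or_pos k with hk | hk
  · omega
  obtain ⟨X, hX⟩ : ∃ X : Fin (N + 1) → M, X = fun i => (x i : M) := ⟨_, rfl⟩
  rw [← hX] at hid hB
  have hX0 : X 0 = 1 := by
    rw [hX]
    exact congrArg Subtype.val hx0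
  have coef := fun v => MP2619.T.st_conic_coeffs cM X (β v) (G v) (hid v)
  have hFX : Fc cM X = 0 := (coef 0).1
  have hDXX : Dc cM X X = 0 := by rw [Dc_self, hFX, mul_zero]
  -- a primitive vector orthogonal to `x`
  have hprim : ∀ (z : Fin (N + 1) → O) (i : Fin (N + 1)), z i = 1 →
      IsLocalRing.residue O (Dc c z x) = 0 →
      IsLocalRing.residue O (z 0) ≠ 0 ∧ ∀ j, IsLocalRing.residue O (z j) =
        IsLocalRing.residue O (z 0) * IsLocalRing.residue O (x j) := by
    intro z i hz h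
    rw [hres] at h
    have h3 := hP _ h
    have h4 : ∀ j, IsLocalRing.residue O (z j) =
        IsLocalRing.residue O (z 0) * IsLocalRing.residue O (x j) := fun j => congrFun h3 j
    refine ⟨fun h0 => ?_, h4⟩
    have h5 := h4 i
    rw [hz, h0, map_one, zero_mul] at h5
    exact one_ne_zero h5
  -- Step 1
  have step1 : ∀ v ≠ 0, G v ≠ 0 := by
    intro v hv hGv
    obtain ⟨-, e5, e4, -, -, -, -⟩ := coef v
    rw [hGv] at e4
    have hz1 : Dc cM X 0 = 0 := by
      have h3 := Dc_smul_right cM 0 X (0 : Fin (N + 1) → M)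
      rwa [zero_smul, zero_mul] at h3
    rw [hz1, zero_add] at e4
    obtain ⟨b, hb⟩ : ∃ b : Fin (N + 1) → M, b = β v + (-(β v 0)) • X := ⟨_, rfl⟩
    have hb0 : b 0 = 0 := by
      rw [hb, Pi.add_apply, Pi.smul_apply, hX0, smul_eq_mul, mul_one, add_neg_cancel]
    have hDb : Dc cM b X = 0 := by
      have t1 : Tc cM (β v) X X = 0 := by
        rw [Tc_comm, Tc_comm', Tc_self, e5, mul_zero]
      rw [hb, Dc_add_left, Dc_smul_left, hDXX, e4, Tc_comm, Tc_smul_left, Tc_comm, t1]
      ring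
    by_cases hbz : b = 0
    · apply hB v hv (β v 0)
      rw [hbz] at hb
      rw [neg_smul, ← sub_eq_add_neg] at hb
      exact (sub_eq_zero.1 hb.symm)
    · obtain ⟨g, z, i, hg, hz, hgz⟩ := K6_scale O b hbz
      rw [hgz, Dc_smul_left, hX, hD] at hDb
      have h3 : (Dc c z x : O) = 0 := by
        apply Subtype.ext
        exact (mul_eq_zero.1 hDb).resolve_left (pow_ne_zero 2 hg)
      obtain ⟨h4, -⟩ := hprim z i hz (by rw [h3, map_zero])
      have h5 := congrFun hgz 0
      rw [hb0, Pi.smul_apply, smul_eq_mul] at h5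
      have h6 : (z 0 : M) = 0 := (mul_eq_zero.1 h5.symm).resolve_left hg
      apply h4
      have h7 : z 0 = 0 := Subtype.ext h6
      rw [h7, map_zero]
  -- Step 2
  have step2 : ∀ v ≠ 0, ∀ (g : M) (z : Fin (N + 1) → O) (i : Fin (N + 1)), g ≠ 0 → z i = 1 →
      G v = g • (fun i => (z i : M)) → IsLocalRing.residue O (Dc c z x) ≠ 0 := by
    intro v hv g z i hg hz hgz h
    obtain ⟨h4, h5⟩ := hprim z i hz h
    have hu : IsUnit (z 0) := by
      by_contra h6
      apply h4
      rw [IsLocalRing.residue_eq_zero_iff, IsLocalRing.mem_maximalIdeal, mem_nonunits_iff]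
      exact h6
    obtain ⟨u, hu⟩ := hu
    have hu0 : ((z 0 : O) : M) ≠ 0 := by
      intro h6
      apply h4
      have h7 : z 0 = 0 := Subtype.ext h6
      rw [h7, map_zero]
    refine hA v hv (g * (z 0 : M)) (fun j => ((u⁻¹ : Oˣ) : O) * z j) (mul_ne_zero hg hu0) ?_ ?_
    · intro j
      rw [map_mul, h5]
      have h6 : IsLocalRing.residue O ((u⁻¹ : Oˣ) : O) * IsLocalRing.residue O (z 0) = 1 := by
        rw [← map_mul, ← hu, Units.inv_mul, map_one]
      rw [← mul_assoc, h6, one_mul]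
    · rw [hgz]
      funext j
      have h6 : ((((u⁻¹ : Oˣ) : O) * z j : O) : M) = ((((u⁻¹ : Oˣ) : O) : O) : M) * (z j : M) :=
        rfl
      have h7 : ((((u⁻¹ : Oˣ) : O) : O) : M) * ((z 0 : O) : M) = 1 := by
        have h8 : (((u⁻¹ : Oˣ) : O) * z 0 : O) = 1 := by rw [← hu, Units.inv_mul]
        exact congrArg Subtype.val h8
      simp only [Pi.smul_apply, smul_eq_mul]
      rw [h6]
      linear_combination - g * (z j : M) * h7
  -- Step 3
  have step3 : ∀ (v : Fin k → M) (t : Fin (N + 1) → O), β v = (fun i => (t i : M)) →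
      ∃ y : Fin (N + 1) → O, G v = fun i => (y i : M) := by
    intro v t ht
    by_cases hv : v = 0
    · refine ⟨0, ?_⟩
      rw [hv, hG0]
      rfl
    obtain ⟨g, z, i, hg, hz, hgz⟩ := K6_scale O (G v) (step1 v hv)
    have h3 := step2 v hv g z i hg hz hgz
    have hu : IsUnit (Dc c z x) := by
      by_contra h6
      apply h3
      rw [IsLocalRing.residue_eq_zero_iff, IsLocalRing.mem_maximalIdeal, mem_nonunits_iff]
      exact h6
    obtain ⟨-, -, -, -, e2, -, -⟩ := coef v
    rw [hgz, ht, Dc_smul_right, Dc_smul_left, hX, hD, hD] at e2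
    have h4 : g * ((Dc c z x : O) : M) = - ((Dc c t z : O) : M) := by
      apply mul_left_cancel₀ hg
      linear_combination e2
    obtain ⟨u, hu⟩ := hu
    have h5 : g = ((- Dc c t z * ((u⁻¹ : Oˣ) : O) : O) : M) := by
      have h6 : ((Dc c z x : O) : M) * (((u⁻¹ : Oˣ) : O) : M) = 1 := by
        have h7 : (Dc c z x * ((u⁻¹ : Oˣ) : O) : O) = 1 := by rw [← hu, Units.mul_inv]
        exact congrArg Subtype.val h7
      have h8 : ((- Dc c t z * ((u⁻¹ : Oˣ) : O) : O) : M) =
        - ((Dc c t z : O) : M) * (((u⁻¹ : Oˣ) : O) : M) := rfl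
      rw [h8, ← h4]
      linear_combination - g * h6
    refine ⟨fun j => (- Dc c t z * ((u⁻¹ : Oˣ) : O)) * z j, ?_⟩
    rw [hgz]
    funext j
    rw [Pi.smul_apply, smul_eq_mul]
    conv_lhs => rw [h5]
    rfl
  -- Step 4
  obtain ⟨T, hTd⟩ : ∃ T, T = redSub O (LinearMap.range β) := ⟨_, rfl⟩
  have hTmem : ∀ t ∈ T, ∃ (v : Fin k → M) (t' : Fin (N + 1) → O) (y : Fin (N + 1) → O),
      β v = (fun i => (t' i : M)) ∧ G v = (fun i => (y i : M)) ∧
        t = fun i => IsLocalRing.residue O (t' i) := by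
    intro t ht
    rw [hTd] at ht
    obtain ⟨t', ⟨v, hv⟩, htt⟩ := ht
    obtain ⟨y, hy⟩ := step3 v t' hv
    exact ⟨v, t', y, hv, hy, htt⟩
  have hTF : ∀ t ∈ T, ∑ i, t i ^ 3 = 0 := by
    intro t ht
    obtain ⟨v, t', y, hv, hy, rfl⟩ := hTmem t ht
    obtain ⟨-, -, -, e3, -, -, -⟩ := coef v
    rw [hv, hy, hX, hcM] at e3
    have h3 : Fc (cm O.subtype c) (fun i => (t' i : M)) = ((Fc c t' : O) : M) :=
      Fc_cm O.subtype t'
    have h4 : Tc (cm O.subtype c) (fun i => (x i : M)) (fun i => (t' i : M))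
        (fun i => (y i : M)) = ((Tc c x t' y : O) : M) := Tc_cm O.subtype x t' y
    rw [h3, h4] at e3
    have h5 : Fc c t' + Tc c x t' y = 0 := Subtype.ext e3
    have h6 := congrArg (IsLocalRing.residue O) h5
    rw [map_add, hT0, add_zero, map_zero, ← Fc_cm, A4_Fc (cm (IsLocalRing.residue O) c) hc] at h6
    exact h6
  have hTx : ∀ t ∈ T, ∑ i, IsLocalRing.residue O (x i) ^ 2 * t i = 0 := by
    intro t ht
    obtain ⟨v, t', y, hv, hy, rfl⟩ := hTmem t ht
    obtain ⟨-, e5, -, -, -, -, -⟩ := coef v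
    rw [hv, hX, hD] at e5
    have h5 : Dc c x t' = 0 := Subtype.ext e5
    rw [← hres, h5, map_zero]
  have hTpol := K6_polar h2 T hTF
  have hΓO : ∀ (v w : Fin k → M) (t s : Fin (N + 1) → O), β v = (fun i => (t i : M)) →
      β w = (fun i => (s i : M)) → ∃ y : Fin (N + 1) → O, Γ v w = fun i => (y i : M) := by
    intro v w t s ht hs
    obtain ⟨y1, h3⟩ := step3 v t ht
    obtain ⟨y2, h4⟩ := step3 w s hs
    obtain ⟨y3, h5⟩ := step3 (v + w) (t + s) (by
      rw [map_add, ht, hs]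
      rfl)
    refine ⟨y3 - y1 - y2, ?_⟩
    have h6 := hΓ v w 1
    rw [one_smul, one_pow, one_smul, one_smul, h3, h4, h5] at h6
    funext j
    have h7 := congrFun h6 j
    simp only [Pi.add_apply] at h7
    have h8 : (((y3 - y1 - y2) j : O) : M) = (y3 j : M) - (y1 j : M) - (y2 j : M) := rfl
    rw [h8]
    linear_combination - h7
  have step4 : ∀ (v : Fin k → M) (t y : Fin (N + 1) → O), β v = (fun i => (t i : M)) →
      G v = (fun i => (y i : M)) → ∀ s ∈ T, ∑ i, IsLocalRing.residue O (y i) ^ 2 * s i = 0 := by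
    intro v t y ht hy s hs
    obtain ⟨w, s', -, hw, -, rfl⟩ := hTmem s hs
    obtain ⟨y', hy'⟩ := hΓO v w t s' ht hw
    have h3 := K6_first cM (G v) (Γ v w) (G w) (β v) (β w) (by
      intro l
      rw [← hΓ, ← map_smul, ← map_add]
      exact (coef (v + l • w)).2.2.2.2.2.1)
    rw [hy, hy', ht, hw, hD, hcM] at h3
    have h4 : Tc (cm O.subtype c) (fun i => (y i : M)) (fun i => (y' i : M))
        (fun i => (t i : M)) = ((Tc c y y' t : O) : M) := Tc_cm O.subtype y y' t
    rw [h4] at h3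
    have h5 : Tc c y y' t + Dc c y s' = 0 := Subtype.ext h3
    have h6 := congrArg (IsLocalRing.residue O) h5
    rw [map_add, hT0, zero_add, map_zero, hres] at h6
    exact h6
  -- Step 5
  obtain ⟨v1, hv1⟩ : ∃ v1 : Fin k → M, v1 ≠ 0 :=
    ⟨fun _ => 1, fun h => one_ne_zero (congrFun h ⟨0, hk⟩)⟩
  have hβ1 : β v1 ≠ 0 := by
    intro h
    apply hB v1 hv1 0
    rw [h, zero_smul]
  obtain ⟨g, t0, i0, hg, ht0, hgt⟩ := K6_scale O (β v1) hβ1
  obtain ⟨v0, hv0⟩ : ∃ v0, v0 = g⁻¹ • v1 := ⟨_, rfl⟩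
  have hv00 : v0 ≠ 0 := by
    rw [hv0]
    exact smul_ne_zero (inv_ne_zero hg) hv1
  have hβ0 : β v0 = fun i => (t0 i : M) := by
    rw [hv0, map_smul, hgt, smul_smul, inv_mul_cancel₀ hg, one_smul]
  obtain ⟨y0, hy0⟩ := step3 v0 t0 hβ0
  have step5 : ∑ i, IsLocalRing.residue O (x i) ^ 2 * IsLocalRing.residue O (y0 i) ≠ 0 := by
    intro h
    obtain ⟨-, -, e4, -, -, e1, -⟩ := coef v0
    have e4' : Dc c x y0 + Dc c t0 x = 0 := by
      rw [hβ0, hy0, hX, hD, hD] at e4
      exact Subtype.ext e4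
    have h3 := congrArg (IsLocalRing.residue O) e4'
    rw [map_add, hres x y0, h, zero_add, map_zero] at h3
    obtain ⟨h4, h5⟩ := hprim t0 i0 ht0 h3
    obtain ⟨g', z, i, hg', hz, hgz⟩ := K6_scale O (G v0) (step1 v0 hv00)
    have h6 := step2 v0 hv00 g' z i hg' hz hgz
    rw [hgz, hβ0, Dc_smul_left, hD] at e1
    have h7 : Dc c z t0 = 0 := by
      apply Subtype.ext
      exact (mul_eq_zero.1 e1).resolve_left (pow_ne_zero 2 hg')
    apply h6
    have h8 := congrArg (IsLocalRing.residue O) h7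
    rw [hres, map_zero] at h8
    have h9 : ∑ i, IsLocalRing.residue O (z i) ^ 2 * IsLocalRing.residue O (t0 i) =
        IsLocalRing.residue O (t0 0) *
          ∑ i, IsLocalRing.residue O (z i) ^ 2 * IsLocalRing.residue O (x i) := by
      rw [Finset.mul_sum]
      refine Finset.sum_congr rfl fun j _ => ?_
      rw [h5 j]
      ring
    rw [h9] at h8
    rw [hres]
    exact (mul_eq_zero.1 h8).resolve_left h4
  -- Step 6
  have hxT : (fun i => IsLocalRing.residue O (x i)) ∉ T := by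
    intro h
    obtain ⟨v, t', y, hv, hy, hxt⟩ := hTmem _ h
    have hv0 : v ≠ 0 := by
      rintro rfl
      rw [map_zero] at hv
      have h3 : (t' 0 : M) = 0 := (congrFun hv 0).symm
      have h4 : t' 0 = 0 := Subtype.ext h3
      have h5 := congrFun hxt 0
      simp only [h4, hx0, map_one, map_zero] at h5
      exact one_ne_zero h5
    obtain ⟨g', z, i, hg', hz, hgz⟩ := K6_scale O (G v) (step1 v hv0)
    have h6 := step2 v hv0 g' z i hg' hz hgz
    obtain ⟨-, -, -, -, -, e1, -⟩ := coef v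
    rw [hgz, hv, Dc_smul_left, hD] at e1
    have h7 : Dc c z t' = 0 := by
      apply Subtype.ext
      exact (mul_eq_zero.1 e1).resolve_left (pow_ne_zero 2 hg')
    apply h6
    have h8 := congrArg (IsLocalRing.residue O) h7
    rw [hres, map_zero] at h8
    rw [hres, ← h8]
    refine Finset.sum_congr rfl fun j _ => ?_
    rw [congrFun hxt j]
  have hxx' : ∑ i, IsLocalRing.residue O (x i) ^ 3 = 0 := by
    have h3 : Fc (cm O.subtype c) (fun i => (x i : M)) = ((Fc c x : O) : M) :=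
      Fc_cm O.subtype x
    rw [← hX, ← hcM, hFX] at h3
    have h5 : Fc c x = 0 := Subtype.ext h3.symm
    have h6 := congrArg (IsLocalRing.residue O) h5
    rwa [map_zero, ← Fc_cm, A4_Fc (cm (IsLocalRing.residue O) c) hc] at h6
  have h3 := K6_count h2 T hTpol (fun i => IsLocalRing.residue O (x i))
    (fun i => IsLocalRing.residue O (y0 i)) hTx hxT hxx' (step4 v0 t0 y0 hβ0 hy0) step5
  have h4 : k ≤ Module.finrank (IsLocalRing.ResidueField O) T := by
    rw [hTd]
    apply K6_red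
    have h5 : Function.Injective β := by
      rw [injective_iff_map_eq_zero]
      intro v hv
      by_contra hne
      apply hB v hne 0
      rw [hv, zero_smul]
    rw [LinearMap.finrank_range_of_inj h5, Module.finrank_fin_fun]
  omega

end main

end MP2619.K
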