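import Pool.Agent.Lib.MP_2619d0_ag.K.K3a
import Pool.Agent.Lib.MP_2619d0_ag.K.K1
import Pool.Agent.Lib.MP_2619d0_ag.K.K6
import Pool.Agent.Lib.MP_2619d0_ag.T.SG4
import Pool.Agent.Lib.MP_2619d0_ag.T.B2

/-!
Row K3b: a place of odd residue degree at which the very general cubic reduces to the Fermat cubic in
characteristic two.
-/

set_option autoImplicit false

namespace MP2619.K

universe u

open MvPolynomial Pool.Agent.Lib.MP_2619d0_ag Pool.Agent.Lib.MP_2619d0_ag.T

/-- elements with generic residues are algebraically independent -/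
theorem K3_indep {A : Type*} {M : Type*} [CommRing A] [IsDomain A] [IsDiscreteValuationRing A]
    [Field M] {m : ℕ} (ψ : MvPolynomial (Fin m) A →+* M) (hψ : Function.Injective ψ)
    (O : ValuationSubring M) (hO : ∀ G, ψ G ∈ O)
    (hval : ∀ G, O.valuation (ψ G) < 1 ↔ ∀ d, coeff d G ∈ IsLocalRing.maximalIdeal A)
    (z : Fin m → O) (hz : ∀ i, IsLocalRing.residue O (z i) =
      IsLocalRing.residue O ((ψ.codRestrict O hO) (X i))) :
    Function.Injective (eval₂Hom (ψ.comp C) (fun i => (z i : M))) := by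
  classical
  obtain ⟨ϖ, hϖ⟩ := IsDiscreteValuationRing.exists_irreducible A
  have hmax := (IsDiscreteValuationRing.irreducible_iff_uniformizer ϖ).mp hϖ
  have hprime : Prime (C ϖ : MvPolynomial (Fin m) A) := (MvPolynomial.prime_C_iff (Fin m)).mpr hϖ.prime
  let E : MvPolynomial (Fin m) A →+* O := eval₂Hom ((ψ.codRestrict O hO).comp C) z
  have hE : ∀ P, ((E P : O) : M) = eval₂Hom (ψ.comp C) (fun i => (z i : M)) P := by
    intro P
    have h1 : (O.subtype).comp E = eval₂Hom (ψ.comp C) (fun i => (z i : M)) := by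
      apply MvPolynomial.ringHom_ext
      · intro a
        rw [RingHom.comp_apply, coe_eval₂Hom, coe_eval₂Hom, eval₂_C, eval₂_C]
        rfl
      · intro i
        rw [RingHom.comp_apply, coe_eval₂Hom, coe_eval₂Hom, eval₂_X, eval₂_X]
        rfl
    exact RingHom.congr_fun h1 P
  have hEr : ∀ P, IsLocalRing.residue O (E P) =
      IsLocalRing.residue O ((ψ.codRestrict O hO) P) := by
    intro P
    have h1 : (IsLocalRing.residue O).comp E = (IsLocalRing.residue O).comp
        (ψ.codRestrict O hO) := by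
      apply MvPolynomial.ringHom_ext
      · intro a
        rw [RingHom.comp_apply, coe_eval₂Hom, eval₂_C]
        rfl
      · intro i
        rw [RingHom.comp_apply, coe_eval₂Hom, eval₂_X, hz]
        rfl
    exact RingHom.congr_fun h1 P
  rw [injective_iff_map_eq_zero]
  intro P hP
  by_contra hP0
  obtain ⟨n, Q, hQ, hPQ⟩ := WfDvdMonoid.max_power_factor hP0 hprime.irreducible
  rw [hPQ, map_mul, map_pow] at hP
  have h1 : eval₂Hom (ψ.comp C) (fun i => (z i : M)) (C ϖ) ≠ 0 := by
    rw [coe_eval₂Hom, eval₂_C, RingHom.comp_apply, Ne, map_eq_zero_iff _ hψ]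
    exact hprime.ne_zero
  have h2 : eval₂Hom (ψ.comp C) (fun i => (z i : M)) Q = 0 :=
    (mul_eq_zero.1 hP).resolve_left (pow_ne_zero n h1)
  rw [← hE] at h2
  have h3 : E Q = 0 := Subtype.ext h2
  have h4 := hEr Q
  rw [h3, map_zero] at h4
  have h5 := h4.symm
  rw [IsLocalRing.residue_eq_zero_iff, ValuationSubring.valuation_lt_one_iff] at h5
  have h6 := (hval Q).1 h5
  apply hQ
  rw [C_dvd_iff_dvd_coeff]
  intro d
  have h7 := h6 d
  rwa [hmax, Ideal.mem_span_singleton] at h7

theorem K3_algebraic {A : Type} {M : Type u} [CommRing A] [IsDomain A] [Field M] [Algebra A M]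
    {m : ℕ} (x z : Fin m → M) (hxa : Algebra.IsAlgebraic (Algebra.adjoin A (Set.range x)) M)
    (hz : AlgebraicIndependent A z) : Algebra.IsAlgebraic (Algebra.adjoin A (Set.range z)) M := by
  have h1 : Algebra.trdeg A M ≤ (m : Cardinal) := by
    have h2 := Algebra.IsAlgebraic.trdeg_le_cardinalMk A (Set.range x)
    refine h2.trans ?_
    have h3 := Cardinal.mk_range_le_lift (f := x)
    rw [Cardinal.lift_mk_fin] at h3
    simpa using h3
  have h2 : IsTranscendenceBasis A z := by
    refine hz.isTranscendenceBasis_of_lift_trdeg_le_of_finite ?_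
    rw [Cardinal.lift_mk_fin]
    have h3 := Cardinal.lift_le.{0}.2 h1
    simpa using h3
  exact h2.isAlgebraic

/-- The field is algebraic over the subfield generated by `ℂ` and elements with generic residues. -/
theorem K3_trans {A : Type} {L : Type u} [CommRing A] [IsDomain A] [IsDiscreteValuationRing A]
    [Field L] [Algebra ℂ L] (β : A →+* ℂ) {m : ℕ} (M : Subfield L)
    (ψ : MvPolynomial (Fin m) A →+* M) (hψ : Function.Injective ψ)
    (hψC : ∀ a, ((ψ (C a) : M) : L) = algebraMap ℂ L (β a))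
    (hfin : Module.finrank (Subfield.closure (Set.range ψ)) M ≠ 0)
    (O : ValuationSubring M) (hO : ∀ G, ψ G ∈ O)
    (hval : ∀ G, O.valuation (ψ G) < 1 ↔ ∀ d, coeff d G ∈ IsLocalRing.maximalIdeal A)
    (z : Fin m → O) (hz : ∀ i, IsLocalRing.residue O (z i) =
      IsLocalRing.residue O ((ψ.codRestrict O hO) (X i))) (I : IntermediateField ℂ L)
    (hI : ∀ i, ((z i : M) : L) ∈ I) (y : M) : IsAlgebraic I (y : L) := by
  classical
  have hfd : FiniteDimensional (Subfield.closure (Set.range ψ)) M :=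
    Module.finite_of_finrank_pos (Nat.pos_of_ne_zero hfin)
  let _ : Algebra A M := (ψ.comp C).toAlgebra
  have hz' : AlgebraicIndependent A (fun i => (z i : M)) := by
    have h1 := K3_indep ψ hψ O hO hval z hz
    exact h1
  -- the coordinates
  have hxa : Algebra.IsAlgebraic (Algebra.adjoin A (Set.range fun i => ψ (X i))) M := by
    let K : Subfield M := Subfield.closure (Set.range ψ)
    let ψK : MvPolynomial (Fin m) A →+* K :=
      ψ.codRestrict _ (fun g => Subfield.subset_closure ⟨g, rfl⟩)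
    let _ : Algebra (MvPolynomial (Fin m) A) K := ψK.toAlgebra
    have hfrac : IsFractionRing (MvPolynomial (Fin m) A) K := K2_frac ψ hψ
    let _ : Algebra (MvPolynomial (Fin m) A) M := ψ.toAlgebra
    have t1 : IsScalarTower (MvPolynomial (Fin m) A) K M :=
      IsScalarTower.of_algebraMap_eq fun _ => rfl
    let θ : MvPolynomial (Fin m) A →+* Algebra.adjoin A (Set.range fun i => ψ (X i)) :=
      (aeval (fun i => (⟨ψ (X i), Algebra.subset_adjoin ⟨i, rfl⟩⟩ :
        Algebra.adjoin A (Set.range fun i => ψ (X i)))) :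
        MvPolynomial (Fin m) A →ₐ[A] _).toRingHom
    have hθ : ∀ g, ((θ g : Algebra.adjoin A (Set.range fun i => ψ (X i))) : M) = ψ g := by
      intro g
      have h1 : ((Algebra.adjoin A (Set.range fun i => ψ (X i))).val :
          Algebra.adjoin A (Set.range fun i => ψ (X i)) →+* M).comp θ = ψ := by
        apply MvPolynomial.ringHom_ext
        · intro a
          change ((aeval _ (C a) : Algebra.adjoin A (Set.range fun i => ψ (X i))) : M) = ψ (C a)
          rw [aeval_C]
          rfl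
        · intro i
          change ((aeval _ (X i) : Algebra.adjoin A (Set.range fun i => ψ (X i))) : M) = ψ (X i)
          rw [aeval_X]
      exact RingHom.congr_fun h1 g
    have hθi : Function.Injective θ := by
      intro a b hab
      apply hψ
      rw [← hθ, ← hθ, hab]
    refine ⟨fun w => ?_⟩
    have h2 : IsAlgebraic K w := Algebra.IsAlgebraic.isAlgebraic w
    rw [← IsFractionRing.isAlgebraic_iff (MvPolynomial (Fin m) A) K M] at h2
    obtain ⟨P, hP0, hP⟩ := h2
    refine ⟨P.map θ, (Polynomial.map_ne_zero_iff hθi).2 hP0, ?_⟩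
    rw [Polynomial.aeval_def, Polynomial.eval₂_map]
    have h3 : (algebraMap (Algebra.adjoin A (Set.range fun i => ψ (X i))) M).comp θ = ψ :=
      RingHom.ext hθ
    rw [h3]
    exact hP
  have hza := K3_algebraic (fun i => ψ (X i)) (fun i => (z i : M)) hxa hz'
  obtain ⟨P, hP0, hP⟩ := hza.isAlgebraic y
  have hmem : ∀ w : Algebra.adjoin A (Set.range fun i => (z i : M)), (((w : M)) : L) ∈ I := by
    rintro ⟨w, hw⟩
    induction hw using Algebra.adjoin_induction with
    | mem x hx =>
      obtain ⟨i, rfl⟩ := hx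
      exact hI i
    | algebraMap a =>
      have h1 : (((algebraMap A M a : M)) : L) = algebraMap ℂ L (β a) := hψC a
      change (((algebraMap A M a : M)) : L) ∈ I
      rw [h1]
      exact I.algebraMap_mem _
    | add x y _ _ hx hy => exact add_mem hx hy
    | mul x y _ _ hx hy => exact mul_mem hx hy
  let θ : Algebra.adjoin A (Set.range fun i => (z i : M)) →+* I :=
    (M.subtype.comp ((Algebra.adjoin A (Set.range fun i => (z i : M))).val :
      Algebra.adjoin A (Set.range fun i => (z i : M)) →+* M)).codRestrict I hmem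
  have hθi : Function.Injective θ := by
    intro a b hab
    have h : ((a : M) : L) = ((b : M) : L) := congrArg (fun w : I => (w : L)) hab
    exact Subtype.ext (Subtype.ext h)
  refine ⟨P.map θ, (Polynomial.map_ne_zero_iff hθi).2 hP0, ?_⟩
  rw [Polynomial.aeval_def, Polynomial.eval₂_map]
  have h3 : (algebraMap I L).comp θ = M.subtype.comp
      (algebraMap (Algebra.adjoin A (Set.range fun i => (z i : M))) M) := rfl
  rw [h3]
  have h4 : P.eval₂ (algebraMap (Algebra.adjoin A (Set.range fun i => (z i : M))) M) y = 0 := hP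
  have h5 := Polynomial.hom_eval₂ P
    (algebraMap (Algebra.adjoin A (Set.range fun i => (z i : M))) M) M.subtype y
  rw [h4, map_zero] at h5
  exact h5.symm

/-- The place. -/
theorem K3_place {m : ℕ} (hm : 1 ≤ m) {F : MvPolynomial (Fin (m + 1 + 1)) ℂ} (hF : VG F)
    {L : Type u} [Field L] [Algebra ℂ L] (χ : MvPolynomial (Fin (m + 1)) ℂ →+* L)
    (hχC : ∀ a, χ (C a) = algebraMap ℂ L a) (hχ : Gp F χ) (hodd : Odd (fd χ)) {ι : Type}
    [Finite ι] (p : ι → L) :
    ∃ (M2 : Subfield L) (O : ValuationSubring M2)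
      (c : Fin (m + 1 + 1) → Fin (m + 1 + 1) → Fin (m + 1 + 1) → O) (x : Fin (m + 1 + 1) → O),
      (∀ i, p i ∈ M2) ∧
      (∀ i j l, ((c i j l : M2) : L) = algebraMap ℂ L (cub F i j l)) ∧
      (∀ i, ((x i : M2) : L) = yh χ i) ∧
      (∀ i j l, IsLocalRing.residue O (c i j l) = if i = j ∧ j = l then 1 else 0) ∧
      (2 : IsLocalRing.ResidueField O) = 0 ∧ Infinite (IsLocalRing.ResidueField O) ∧
      (∀ w : Fin (m + 1 + 1) → IsLocalRing.ResidueField O,
        ∑ i, w i ^ 2 * IsLocalRing.residue O (x i) = 0 →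
          w = w 0 • fun i => IsLocalRing.residue O (x i)) ∧
      (∀ z : Fin (m + 1 + 1) → O,
        (∀ i, IsLocalRing.residue O (z i) = IsLocalRing.residue O (x i)) →
        ∀ I : IntermediateField ℂ L, (∀ i, ((z i : M2) : L) ∈ I) →
        ∀ y : M2, IsAlgebraic I (y : L)) := by
  classical
  have hchar : CharZero L := charZero_of_injective_algebraMap (algebraMap ℂ L).injective
  obtain ⟨hψ, hψodd⟩ := K3_deg hF χ hχ hodd
  obtain ⟨T, hT⟩ := descend (K3_psi χ) hψodd.pos.ne' (fun o : Option ι => o.elim (χ (X 0)) p)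
  obtain ⟨A, _, _, _, β, hβ, h2A, hcA, hTT⟩ := K1_dvr (fun j : Exp3 (m + 1 + 1) => coeff j.1 F) hF.2
    (fun j => if ∃ i, j.1 = Finsupp.single i 3 then 1 else 0) (T.biUnion fun c => c.coeffs)
  have hden := SG4_den β T (fun c hc z hz => hTT z (Finset.mem_biUnion.mpr ⟨c, hc, hz⟩))
  obtain ⟨M2, hM2, hp, hfr⟩ := hT (MvPolynomial (Fin m) A) (MvPolynomial.map β) (by
    intro c hc
    obtain ⟨a, b, hb, hab⟩ := hden c hc
    refine ⟨a, b, ?_, ?_⟩
    · intro h0
      exact hb (hψ (by rw [h0, map_zero]))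
    · rw [← map_mul, hab])
  obtain ⟨ψ', hψ'⟩ : ∃ ψ' : MvPolynomial (Fin m) A →+* M2,
    ψ' = ((K3_psi χ).comp (MvPolynomial.map β)).codRestrict M2 hM2 := ⟨_, rfl⟩
  have hψ'v : ∀ G, (ψ' G : L) = K3_psi χ (map β G) := fun G => by rw [hψ']; rfl
  have hψ'C : ∀ a, (ψ' (C a) : L) = algebraMap ℂ L (β a) := by
    intro a
    rw [hψ'v, map_C, K3_psi_C, hχC]
  have hψ'X : ∀ i, (ψ' (X i) : L) = χ (X i.succ) := by
    intro i
    rw [hψ'v, map_X, K3_psi_X]
  have hψ'inj : Function.Injective ψ' := by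
    intro a b hab
    have h1 : K3_psi χ (map β a) = K3_psi χ (map β b) := by
      rw [← hψ'v, ← hψ'v, hab]
    exact map_injective β hβ (hψ h1)
  rw [← hψ'] at hfr
  obtain ⟨O, hO, hval, hoddO⟩ := gauss_place ψ' hψ'inj (by rw [hfr]; exact hψodd)
  obtain ⟨ρ0, hρ0⟩ : ∃ ρ0, ρ0 = (IsLocalRing.residue O).comp (ψ'.codRestrict O hO) := ⟨_, rfl⟩
  have hρ0z : ∀ G, ρ0 G = 0 ↔ ∀ d, coeff d G ∈ IsLocalRing.maximalIdeal A := by
    intro G
    rw [← hval, ← O.valuation_lt_one_iff (⟨ψ' G, hO G⟩ : O), ← IsLocalRing.residue_eq_zero_iff, hρ0]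
    rfl
  have hρ0C : ∀ a, ρ0 (C a) = 0 ↔ a ∈ IsLocalRing.maximalIdeal A := by
    intro a
    rw [hρ0z]
    constructor
    · intro h
      have h1 := h 0
      rwa [coeff_C, if_pos rfl] at h1
    · intro h d
      rw [coeff_C]
      split_ifs
      · exact h
      · exact Ideal.zero_mem _
  -- the residue map
  obtain ⟨r, hr⟩ : ∃ r : A →+* IsLocalRing.ResidueField O, r = ρ0.comp C := ⟨_, rfl⟩
  have hloc : IsLocalHom r := by
    refine ⟨fun a ha => ?_⟩
    by_contra hna
    have h1 : a ∈ IsLocalRing.maximalIdeal A := (IsLocalRing.mem_maximalIdeal a).2 hna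
    rw [← hρ0C] at h1
    rw [hr] at ha
    exact ha.ne_zero h1
  let r1 : IsLocalRing.ResidueField A →+* IsLocalRing.ResidueField O := IsLocalRing.ResidueField.lift r
  have hr1 : ∀ a, r1 (IsLocalRing.residue A a) = ρ0 (C a) := by
    intro a
    change IsLocalRing.ResidueField.lift r (IsLocalRing.residue A a) = _
    rw [IsLocalRing.ResidueField.lift_residue_apply, hr]
    rfl
  obtain ⟨ρ1, hρ1⟩ : ∃ ρ1 : MvPolynomial (Fin m) (IsLocalRing.ResidueField A) →+*
    IsLocalRing.ResidueField O, ρ1 = eval₂Hom r1 (fun i => ρ0 (X i)) := ⟨_, rfl⟩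
  have hρ1X : ∀ i, ρ1 (X i) = ρ0 (X i) := by
    intro i
    rw [hρ1, coe_eval₂Hom, eval₂_X]
  have hρ10 : ∀ G, ρ1 (map (IsLocalRing.residue A) G) = ρ0 G := by
    intro G
    have h1 : ρ1.comp (map (IsLocalRing.residue A)) = ρ0 := by
      apply MvPolynomial.ringHom_ext
      · intro a
        rw [RingHom.comp_apply, map_C, hρ1, coe_eval₂Hom, eval₂_C, hr1]
      · intro i
        rw [RingHom.comp_apply, map_X, hρ1X]
    exact RingHom.congr_fun h1 G
  have hsurj : Function.Surjective (map (IsLocalRing.residue A) :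
      MvPolynomial (Fin m) A → MvPolynomial (Fin m) (IsLocalRing.ResidueField A)) :=
    map_surjective _ IsLocalRing.residue_surjective
  have hρ1inj : Function.Injective ρ1 := by
    rw [injective_iff_map_eq_zero]
    intro P hP
    obtain ⟨G, rfl⟩ := hsurj P
    rw [hρ10, hρ0z] at hP
    ext d
    rw [coeff_map, coeff_zero, IsLocalRing.residue_eq_zero_iff]
    exact hP d
  have hrange : Set.range ρ1 = Set.range ρ0 := by
    apply Set.Subset.antisymm
    · rintro _ ⟨P, rfl⟩
      obtain ⟨G, rfl⟩ := hsurj P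
      exact ⟨G, (hρ10 G).symm⟩
    · rintro _ ⟨G, rfl⟩
      exact ⟨_, hρ10 G⟩
  have hodd1 : Odd (Module.finrank (Subfield.closure (Set.range ρ1))
      (IsLocalRing.ResidueField O)) := by
    rw [hrange, hρ0]
    exact hoddO
  have h2res : (2 : IsLocalRing.ResidueField O) = 0 := by
    have h1 := (hρ0C 2).2 h2A
    have h2 : (C (2 : A) : MvPolynomial (Fin m) A) = 2 := map_ofNat C 2
    rw [h2, map_ofNat] at h1
    exact h1
  have hinf : Infinite (IsLocalRing.ResidueField O) := by
    have : Nonempty (Fin m) := ⟨⟨0, hm⟩⟩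
    exact Infinite.of_injective ρ1 hρ1inj
  -- coefficients
  choose cA hcA1 hcA2 using hcA
  have hdeg : ∀ i j k : Fin (m + 1 + 1), (Finsupp.single i 1 + Finsupp.single j 1 +
      Finsupp.single k 1 : Fin (m + 1 + 1) →₀ ℕ).degree = 3 := by
    intro i j k
    simp [map_add]
  obtain ⟨c, hc⟩ : ∃ c : Fin (m + 1 + 1) → Fin (m + 1 + 1) → Fin (m + 1 + 1) → O, ∀ i j k,
      c i j k = if i ≤ j ∧ j ≤ k then (ψ'.codRestrict O hO)
        (C (cA (⟨Finsupp.single i 1 + Finsupp.single j 1 + Finsupp.single k 1, hdeg i j k⟩ :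
          Exp3 (m + 1 + 1)))) else 0 := ⟨_, fun _ _ _ => rfl⟩
  have hcL : ∀ i j l, ((c i j l : M2) : L) = algebraMap ℂ L (cub F i j l) := by
    intro i j k
    rw [hc]
    unfold cub
    split_ifs with h
    · change (ψ' (C _) : L) = _
      rw [hψ'C, hcA1]
    · rw [map_zero]
      rfl
  have hcr : ∀ i j l, IsLocalRing.residue O (c i j l) = if i = j ∧ j = l then 1 else 0 := by
    intro i j k
    rw [hc]
    by_cases h : i ≤ j ∧ j ≤ k
    · rw [if_pos h]
      have h3 := (hρ0C _).2 (hcA2 (⟨Finsupp.single i 1 + Finsupp.single j 1 + Finsupp.single k 1,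
        hdeg i j k⟩ : Exp3 (m + 1 + 1)))
      rw [C_sub, map_sub, sub_eq_zero, hρ0] at h3
      change IsLocalRing.residue O ((ψ'.codRestrict O hO) (C _)) = _ at h3
      rw [h3]
      by_cases h2 : i = j ∧ j = k
      · rw [if_pos h2, if_pos]
        · rw [Int.cast_one, C_1, map_one]
        · obtain ⟨rfl, rfl⟩ := h2
          refine ⟨i, ?_⟩
          change (Finsupp.single i 1 + Finsupp.single i 1 + Finsupp.single i 1 :
            Fin (m + 1 + 1) →₀ ℕ) = _
          rw [← Finsupp.single_add, ← Finsupp.single_add]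
      · rw [if_neg h2, if_neg]
        · rw [Int.cast_zero, C_0, map_zero]
        · rintro ⟨l, hl⟩
          exact h2 (V1_sum_single i j k l hl)
    · rw [if_neg h, if_neg, map_zero]
      rintro ⟨rfl, rfl⟩
      exact h ⟨le_refl _, le_refl _⟩
  -- the point
  obtain ⟨xM, hxMd⟩ : ∃ xM : Fin (m + 1 + 1) → M2,
    xM = Fin.cons 1 (Fin.cons ⟨χ (X 0), hp none⟩ (fun i => ψ' (X i))) := ⟨_, rfl⟩
  have hxM0 : xM 0 = 1 := by rw [hxMd, Fin.cons_zero]
  have hxM2 : ∀ i : Fin m, xM i.succ.succ = ψ' (X i) := by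
    intro i
    rw [hxMd, Fin.cons_succ, Fin.cons_succ]
  have hxML : ∀ i, (xM i : L) = yh χ i := by
    intro i
    rw [hxMd]
    unfold yh
    refine Fin.cases ?_ (fun i => ?_) i
    · rw [Fin.cons_zero, Fin.cons_zero]
      rfl
    · rw [Fin.cons_succ, Fin.cons_succ]
      refine Fin.cases ?_ (fun i => ?_) i
      · rw [Fin.cons_zero]
      · rw [Fin.cons_succ, hψ'X]
  have hF0 : Fc (cm O.subtype c) xM = 0 := by
    apply Subtype.ext
    have h1 : Fc (cm M2.subtype (cm O.subtype c)) (fun i => (xM i : L)) =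
        ((Fc (cm O.subtype c) xM : M2) : L) := Fc_cm M2.subtype xM
    have h2 : cm M2.subtype (cm O.subtype c) = cc F χ := by
      funext i j k
      change ((c i j k : M2) : L) = χ (C (cub F i j k))
      rw [hcL, hχC]
    have h3 : (fun i => (xM i : L)) = yh χ := funext hxML
    rw [h2, h3, ← chi_dh hF.1 χ, (hχ _).2 dvd_rfl] at h1
    exact h1.symm
  have hxO2 : ∀ i : Fin (m + 1 + 1), i ≠ 1 → xM i ∈ O := by
    intro i
    refine Fin.cases ?_ (fun i => ?_) i
    · intro _
      rw [hxM0]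
      exact O.one_mem
    · refine Fin.cases ?_ (fun i => ?_) i
      · intro h
        exact absurd rfl h
      · intro _
        rw [hxM2]
        exact hO _
  have hξ : xM 1 ∈ O := by
    by_contra hnot
    have hinv : (xM 1)⁻¹ ∈ O := (O.mem_or_inv_mem _).resolve_left hnot
    have hx1 : xM 1 ≠ 0 := by
      intro h
      apply hnot
      rw [h]
      exact O.zero_mem
    have hres0 : IsLocalRing.residue O ⟨(xM 1)⁻¹, hinv⟩ = 0 := by
      rw [IsLocalRing.residue_eq_zero_iff, IsLocalRing.mem_maximalIdeal, mem_nonunits_iff]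
      rintro ⟨u, hu⟩
      apply hnot
      have h1 : ((u : O) : M2) * (((u⁻¹ : Oˣ) : O) : M2) = 1 := by
        have h2 : ((u : O) * ((u⁻¹ : Oˣ) : O) : O) = 1 := Units.mul_inv u
        exact congrArg Subtype.val h2
      rw [hu] at h1
      have h2 : (((u⁻¹ : Oˣ) : O) : M2) = xM 1 := by
        have h3 : (xM 1)⁻¹ * (((u⁻¹ : Oˣ) : O) : M2) = 1 := h1
        field_simp at h3
        exact h3
      rw [← h2]
      exact (((u⁻¹ : Oˣ) : O)).2
    let w : Fin (m + 1 + 1) → O := fun i => if h : i = 1 then 1 else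
      ⟨(xM 1)⁻¹, hinv⟩ * ⟨xM i, hxO2 i h⟩
    have hw : (fun i => (w i : M2)) = (xM 1)⁻¹ • xM := by
      funext i
      by_cases h : i = 1
      · simp only [w]
        rw [dif_pos h, h, Pi.smul_apply, smul_eq_mul, inv_mul_cancel₀ hx1]
        rfl
      · simp only [w]
        rw [dif_neg h]
        rfl
    have hFw : Fc c w = 0 := by
      apply Subtype.ext
      have h1 : Fc (cm O.subtype c) (fun i => (w i : M2)) = ((Fc c w : O) : M2) := Fc_cm O.subtype w
      rw [hw, Fc_smul, hF0, mul_zero] at h1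
      exact h1.symm
    have h2 := congrArg (IsLocalRing.residue O) hFw
    rw [map_zero, ← Fc_cm, A4_Fc (cm (IsLocalRing.residue O) c) hcr, Finset.sum_eq_single 1] at h2
    · have hw1 : w 1 = 1 := dif_pos rfl
      rw [hw1, map_one, one_pow] at h2
      exact one_ne_zero h2
    · intro i _ hi
      simp only [w]
      rw [dif_neg hi, map_mul, hres0, zero_mul, zero_pow (by norm_num)]
    · intro h
      exact absurd (Finset.mem_univ _) h
  have hxO : ∀ i, xM i ∈ O := by
    intro i
    by_cases h : i = 1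
    · rw [h]
      exact hξ
    · exact hxO2 i h
  obtain ⟨x, hx⟩ : ∃ x : Fin (m + 1 + 1) → O, ∀ i, (x i : M2) = xM i :=
    ⟨fun i => ⟨xM i, hxO i⟩, fun _ => rfl⟩
  have hx0 : IsLocalRing.residue O (x 0) = 1 := by
    have h1 : x 0 = 1 := Subtype.ext ((hx 0).trans hxM0)
    rw [h1, map_one]
  have hx2 : ∀ i : Fin m, x i.succ.succ = (ψ'.codRestrict O hO) (X i) := fun i =>
    Subtype.ext ((hx _).trans (hxM2 i))
  have hx2' : ∀ i : Fin m, IsLocalRing.residue O (x i.succ.succ) = ρ1 (X i) := by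
    intro i
    rw [hx2, hρ1X, hρ0]
    rfl
  have hsum : ∑ i, IsLocalRing.residue O (x i) ^ 3 = 0 := by
    have h1 : Fc c x = 0 := by
      apply Subtype.ext
      have h1 : Fc (cm O.subtype c) (fun i => (x i : M2)) = ((Fc c x : O) : M2) := Fc_cm O.subtype x
      rw [funext hx, hF0] at h1
      exact h1.symm
    have h2 := congrArg (IsLocalRing.residue O) h1
    rwa [map_zero, ← Fc_cm, A4_Fc (cm (IsLocalRing.residue O) c) hcr] at h2
  refine ⟨M2, O, c, x, fun i => hp (some i), hcL, ?_, hcr, h2res, hinf, ?_, ?_⟩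
  · intro i
    rw [hx, hxML]
  · intro w hw
    exact K2_P1 h2res ρ1 hρ1inj hodd1 (fun i => IsLocalRing.residue O (x i)) hx0 hx2' hsum w hw
  · intro z hz I hI y
    refine K3_trans β M2 ψ' hψ'inj hψ'C ?_ O hO hval (fun i => z i.succ.succ) ?_ I
      (fun i => hI _) y
    · rw [hfr]
      exact hψodd.pos.ne'
    · intro i
      rw [hz, hx2]

end MP2619.K
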