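import Pool.Agent.Lib.MP_2619d0_ag.K.K2
import Pool.Agent.Lib.MP_2619d0_ag.T.Defs

/-!
Row K3a: the projection of the cubic to a coordinate hyperplane has degree three.
-/

set_option autoImplicit false

namespace MP2619.K

open MvPolynomial Pool.Agent.Lib.MP_2619d0_ag Pool.Agent.Lib.MP_2619d0_ag.T

theorem K3_lead {m : ℕ} {F : MvPolynomial (Fin (m + 1 + 1)) ℂ} (hF : VG F) :
    coeff (Finsupp.single 1 3) F ≠ 0 :=
  hF.2.ne_zero (⟨Finsupp.single 1 3, Finsupp.degree_single _ _⟩ : Exp3 (m + 1 + 1))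

/-- all affine coordinates except the first one -/
noncomputable def K3_psi {m : ℕ} {κ : Type*} [Field κ]
    (χ : MvPolynomial (Fin (m + 1)) ℂ →+* κ) : MvPolynomial (Fin m) ℂ →+* κ :=
  (χ.comp ((finSuccEquiv ℂ m).symm : Polynomial (MvPolynomial (Fin m) ℂ) →+*
    MvPolynomial (Fin (m + 1)) ℂ)).comp Polynomial.C

theorem K3_psi_X {m : ℕ} {κ : Type*} [Field κ] (χ : MvPolynomial (Fin (m + 1)) ℂ →+* κ)
    (i : Fin m) : K3_psi χ (X i) = χ (X i.succ) := by
  change χ ((finSuccEquiv ℂ m).symm (Polynomial.C (X i))) = _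
  rw [← finSuccEquiv_X_succ, AlgEquiv.symm_apply_apply]

theorem K3_psi_C {m : ℕ} {κ : Type*} [Field κ] (χ : MvPolynomial (Fin (m + 1)) ℂ →+* κ)
    (a : ℂ) : K3_psi χ (C a) = χ (C a) := by
  change χ ((finSuccEquiv ℂ m).symm (Polynomial.C (C a))) = _
  have h : Polynomial.C (C a) = finSuccEquiv ℂ m (C a) := by
    simp [finSuccEquiv_apply]
  rw [h, AlgEquiv.symm_apply_apply]

theorem K3_eval {m : ℕ} {κ : Type*} [Field κ] (χ : MvPolynomial (Fin (m + 1)) ℂ →+* κ)
    (P : Polynomial (MvPolynomial (Fin m) ℂ)) :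
    χ ((finSuccEquiv ℂ m).symm P) = P.eval₂ (K3_psi χ) (χ (X 0)) := by
  have h1 : χ.comp ((finSuccEquiv ℂ m).symm : Polynomial (MvPolynomial (Fin m) ℂ) →+*
      MvPolynomial (Fin (m + 1)) ℂ) = Polynomial.eval₂RingHom (K3_psi χ) (χ (X 0)) := by
    apply Polynomial.ringHom_ext
    · intro a
      rw [Polynomial.coe_eval₂RingHom, Polynomial.eval₂_C]
      rfl
    · rw [Polynomial.coe_eval₂RingHom, Polynomial.eval₂_X]
      change χ ((finSuccEquiv ℂ m).symm Polynomial.X) = _
      rw [← finSuccEquiv_X_zero, AlgEquiv.symm_apply_apply]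
  exact RingHom.congr_fun h1 P

theorem K3_deg {m : ℕ} {F : MvPolynomial (Fin (m + 1 + 1)) ℂ} (hF : VG F)
    {κ : Type*} [Field κ] (χ : MvPolynomial (Fin (m + 1)) ℂ →+* κ) (hχ : Gp F χ)
    (hodd : Odd (fd χ)) :
    Function.Injective (K3_psi χ) ∧
      Odd (Module.finrank (Subfield.closure (Set.range (K3_psi χ))) κ) := by
  classical
  obtain ⟨f, hf⟩ : ∃ f, f = finSuccEquiv ℂ m (dh ℂ (m + 1) F) := ⟨_, rfl⟩
  obtain ⟨hd, hc⟩ := finSucc_dh_coeff (m := m) hF.1
  rw [← hf] at hd hc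
  have hlead := K3_lead hF
  have hc3 : f.coeff 3 ≠ 0 := by
    rw [hc, Ne, C_eq_zero]
    exact hlead
  have hnd : f.natDegree = 3 := by
    apply le_antisymm
    · exact Polynomial.natDegree_le_of_degree_le hd
    · exact Polynomial.le_natDegree_of_ne_zero hc3
  have hf0 : f ≠ 0 := by
    rintro rfl
    exact hc3 (Polynomial.coeff_zero _)
  have hker : ∀ P : Polynomial (MvPolynomial (Fin m) ℂ),
      P.eval₂ (K3_psi χ) (χ (X 0)) = 0 ↔ f ∣ P := by
    intro P
    rw [← K3_eval, hχ, dvd_iff_finSucc, ← hf, AlgEquiv.apply_symm_apply]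
  have hinj : Function.Injective (K3_psi χ) := by
    rw [injective_iff_map_eq_zero]
    intro g hg
    have h1 : (Polynomial.C g).eval₂ (K3_psi χ) (χ (X 0)) = 0 := by
      rw [Polynomial.eval₂_C, hg]
    rw [hker] at h1
    by_contra hg0
    have h2 := Polynomial.natDegree_le_of_dvd h1 (Polynomial.C_ne_zero.2 hg0)
    rw [hnd, Polynomial.natDegree_C] at h2
    omega
  refine ⟨hinj, ?_⟩
  -- the monic polynomial
  obtain ⟨u, hu⟩ : ∃ u : ℂ, u = (coeff (Finsupp.single 1 3) F)⁻¹ := ⟨_, rfl⟩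
  obtain ⟨f', hf'⟩ : ∃ f', f' = Polynomial.C (C u) * f := ⟨_, rfl⟩
  have hf'm : f'.Monic := by
    refine Polynomial.monic_of_degree_le 3 ?_ ?_
    · rw [hf']
      refine (Polynomial.degree_mul_le _ _).trans ?_
      have h8 : (Polynomial.C (C u) : Polynomial (MvPolynomial (Fin m) ℂ)).degree ≤ 0 :=
        Polynomial.degree_C_le
      calc _ ≤ (0 : WithBot ℕ) + 3 := add_le_add h8 hd
        _ = 3 := zero_add _
    · rw [hf', Polynomial.coeff_C_mul, hc, ← C_mul, hu, inv_mul_cancel₀ hlead, C_1]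
  have hf'0 : f'.eval₂ (K3_psi χ) (χ (X 0)) = 0 := by
    rw [hker, hf']
    exact Dvd.intro_left _ rfl
  let K : Subfield κ := Subfield.closure (Set.range (K3_psi χ))
  let ψK : MvPolynomial (Fin m) ℂ →+* K :=
    (K3_psi χ).codRestrict _ (fun g => Subfield.subset_closure ⟨g, rfl⟩)
  let _ : Algebra (MvPolynomial (Fin m) ℂ) K := ψK.toAlgebra
  have hfrac : IsFractionRing (MvPolynomial (Fin m) ℂ) K := K2_frac (K3_psi χ) hinj
  let _ : Algebra (MvPolynomial (Fin m) ℂ) κ := (K3_psi χ).toAlgebra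
  have t1 : IsScalarTower (MvPolynomial (Fin m) ℂ) K κ :=
    IsScalarTower.of_algebraMap_eq fun _ => rfl
  have hint : IsIntegral (MvPolynomial (Fin m) ℂ) (χ (X 0)) := ⟨f', hf'm, hf'0⟩
  have hintK : IsIntegral K (χ (X 0)) := hint.tower_top
  have hic : IsIntegrallyClosed (MvPolynomial (Fin m) ℂ) := inferInstance
  have hfs : FaithfulSMul (MvPolynomial (Fin m) ℂ) κ :=
    (faithfulSMul_iff_algebraMap_injective _ _).mpr hinj
  have hmin := minpoly.isIntegrallyClosed_eq_field_fractions' K hint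
  have hdeg : (minpoly K (χ (X 0))).natDegree = 3 := by
    rw [hmin, (minpoly.monic hint).natDegree_map]
    apply le_antisymm
    · have h1 := minpoly.isIntegrallyClosed_dvd hint (p := f') hf'0
      have h2 := Polynomial.natDegree_le_of_dvd h1 hf'm.ne_zero
      refine h2.trans ?_
      rw [hf', ← hnd]
      exact Polynomial.natDegree_C_mul_le _ _
    · have h1 : f ∣ minpoly (MvPolynomial (Fin m) ℂ) (χ (X 0)) := by
        rw [← hker]
        exact minpoly.aeval _ _
      have h2 := Polynomial.natDegree_le_of_dvd h1 (minpoly.monic hint).ne_zero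
      rwa [hnd] at h2
  let M1 : IntermediateField K κ := IntermediateField.adjoin K {χ (X 0)}
  have h3 : Module.finrank K M1 = 3 := by
    rw [← hdeg]
    exact IntermediateField.adjoin.finrank hintK
  have h4 : M1.toSubfield = cl χ := by
    apply le_antisymm
    · have hKle : K ≤ cl χ := by
        rw [Subfield.closure_le]
        rintro _ ⟨g, rfl⟩
        exact Subfield.subset_closure ⟨_, rfl⟩
      let M2 : IntermediateField K κ := (cl χ).toIntermediateField (fun z => hKle z.2)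
      have h5 : M1 ≤ M2 := by
        rw [IntermediateField.adjoin_le_iff]
        rintro _ rfl
        exact Subfield.subset_closure ⟨X 0, rfl⟩
      exact fun z hz => h5 hz
    · unfold cl
      rw [Subfield.closure_le]
      rintro _ ⟨g, rfl⟩
      have h5 : χ g = (finSuccEquiv ℂ m g).eval₂ (K3_psi χ) (χ (X 0)) := by
        rw [← K3_eval, AlgEquiv.symm_apply_apply]
      rw [h5, Polynomial.eval₂_eq_sum_range]
      refine Subfield.sum_mem _ fun i _ => Subfield.mul_mem _ ?_ (Subfield.pow_mem _ ?_ _)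
      · exact M1.algebraMap_mem ⟨_, Subfield.subset_closure ⟨_, rfl⟩⟩
      · exact IntermediateField.mem_adjoin_simple_self _ _
  have h5 : Module.finrank M1 κ = fd χ := by
    have h6 : Module.finrank M1 κ = Module.finrank M1.toSubfield κ := rfl
    rw [h6, h4]
    rfl
  have h6 := Module.finrank_mul_finrank K M1 κ
  rw [h3, h5] at h6
  rw [← h6]
  exact Odd.mul (by decide) hodd

end MP2619.K
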