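import Pool.Agent.Lib.MP_2619d0_ag.K.K3b
import Pool.Agent.Lib.MP_2619d0_ag.QMain

/-!
Row K5: transcendence degrees.
-/

set_option autoImplicit false

namespace MP2619.K

universe u

open MvPolynomial Pool.Agent.Lib.MP_2619d0_ag Pool.Agent.Lib.MP_2619d0_ag.T MP2619.T Algebra

section

variable {m n : ℕ} {E L : Type u} [Field E] [Field L] [Algebra ℂ E] [Algebra ℂ L] [Algebra E L]
  [IsScalarTower ℂ E L]

theorem K5_small {k : ℕ} (hk : k + 2 ≤ n) (p : Fin n → L) (hp : GenE E p)
    (x : Fin (m+1+1) → L) (hodd : Odd (Module.finrank (ratioField x) L)) (y : Fin k → L)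
    (hle : ∀ i j, IsAlgebraic (IntermediateField.adjoin E (Set.range y)) (x i / x j)) :
    False := by
  obtain ⟨n, rfl⟩ : ∃ n', n = n' + 1 := ⟨n - 1, by omega⟩
  have h1 := MP2619.TL.le_trdeg_of_generic (E := E) p hp
  have h2 := MP2619.TL.trdeg_adjoin_fin_le (k := E) y
  have hfin : FiniteDimensional (ratioField x) L := by
    apply FiniteDimensional.of_finrank_pos
    exact Nat.pos_of_ne_zero fun h => by rw [h] at hodd; exact Nat.not_odd_zero hodd
  let J : IntermediateField (IntermediateField.adjoin E (Set.range y)) L :=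
    algebraicClosure (IntermediateField.adjoin E (Set.range y)) L
  have halg : Algebra.IsAlgebraic (IntermediateField.adjoin E (Set.range y)) L := by
    refine ⟨fun z => ?_⟩
    have h3 : IsAlgebraic (ratioField x) z := Algebra.IsAlgebraic.isAlgebraic z
    have h4 : ratioField x ≤ (J.restrictScalars E).restrictScalars ℂ := by
      unfold ratioField
      rw [IntermediateField.adjoin_le_iff]
      rintro _ ⟨i, j, rfl⟩
      exact mem_algebraicClosure_iff.2 (hle i j)
    obtain ⟨f, hf0, hf⟩ := h3
    let ι : ratioField x →+* J := (IntermediateField.inclusion h4).toRingHom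
    have h5 : IsAlgebraic J z := by
      refine ⟨f.map ι, (Polynomial.map_ne_zero_iff ι.injective).2 hf0, ?_⟩
      rw [Polynomial.aeval_def, Polynomial.eval₂_map]
      rw [Polynomial.aeval_def] at hf
      exact hf
    exact h5.restrictScalars (IntermediateField.adjoin E (Set.range y))
  have h5 := trdeg_add_eq E (IntermediateField.adjoin E (Set.range y)) (A := L)
  rw [trdeg_eq_zero (R := IntermediateField.adjoin E (Set.range y)) (A := L), add_zero] at h5
  rw [← h5] at h1
  have h6 : (n : Cardinal) ≤ (k : Cardinal) := h1.trans h2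
  have h7 : n ≤ k := by exact_mod_cast h6
  omega

omit [Algebra ℂ E] [Algebra ℂ L] [IsScalarTower ℂ E L] in
/-- The ratios of quadratic forms at a point with two coordinates proportional over the ground field
lie in a field generated by `n - 2` elements. -/
theorem K5_ratio {N : ℕ} (φ : Fin N → MvPolynomial (Fin n) E) (hφ : ∀ j, (φ j).IsHomogeneous 2)
    (v : Fin n → L) (i0 i1 : Fin n) (h01 : i1 ≠ i0) (h0 : v i0 ≠ 0) (c : E)
    (h1 : v i1 = algebraMap E L c * v i0) :
    ∃ y : Fin (n - 2) → L, ∀ i j, aeval v (φ i) / aeval v (φ j) ∈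
      IntermediateField.adjoin E (Set.range y) := by
  classical
  have hcard : Fintype.card {i : Fin n // i ≠ i1 ∧ i ≠ i0} = n - 2 := by
    have h3 : Fintype.card {i : Fin n // i ≠ i1 ∧ i ≠ i0} =
        (Finset.univ.filter fun i : Fin n => i ≠ i1 ∧ i ≠ i0).card := Fintype.card_subtype _
    have h4 : (Finset.univ.filter fun i : Fin n => i ≠ i1 ∧ i ≠ i0) = {i1, i0}ᶜ := by
      ext i
      simp
    rw [h3, h4, Finset.card_compl, Fintype.card_fin, Finset.card_pair h01]
  let σ := (Fintype.equivFinOfCardEq hcard).symm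
  let y : Fin (n - 2) → L := fun t => v (σ t).1 / v i0
  have hmem : ∀ i, v i / v i0 ∈ IntermediateField.adjoin E (Set.range y) := by
    intro i
    by_cases hi : i = i1
    · rw [hi, h1, mul_div_assoc, div_self h0, mul_one]
      exact IntermediateField.algebraMap_mem _ _
    by_cases hi' : i = i0
    · rw [hi', div_self h0]
      exact one_mem _
    apply IntermediateField.subset_adjoin
    refine ⟨σ.symm ⟨i, hi, hi'⟩, ?_⟩
    change v (σ (σ.symm ⟨i, hi, hi'⟩)).1 / v i0 = v i / v i0
    rw [Equiv.apply_symm_apply]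
  have hval : ∀ j, aeval v (φ j) = (v i0) ^ 2 * aeval (fun i => v i / v i0) (φ j) := by
    intro j
    rw [← aeval_smul_homog (L := L) (hφ j)]
    congr 1
    congr 1
    funext i
    rw [mul_div_cancel₀ _ h0]
  have hin : ∀ j, aeval (fun i => v i / v i0) (φ j) ∈ IntermediateField.adjoin E (Set.range y) := by
    intro j
    have h3 := MvPolynomial.aeval_algebraMap_apply
      (A := IntermediateField.adjoin E (Set.range y)) L (fun i => ⟨v i / v i0, hmem i⟩) (φ j)
    have h4 : (fun i => algebraMap (IntermediateField.adjoin E (Set.range y)) L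
        (⟨v i / v i0, hmem i⟩ : IntermediateField.adjoin E (Set.range y))) =
        fun i => v i / v i0 := rfl
    change aeval (fun i => algebraMap (IntermediateField.adjoin E (Set.range y)) L
        (⟨v i / v i0, hmem i⟩ : IntermediateField.adjoin E (Set.range y))) (φ j) = _ at h3
    rw [h4] at h3
    rw [h3]
    exact (aeval (fun i => (⟨v i / v i0, hmem i⟩ : IntermediateField.adjoin E (Set.range y)))
      (φ j)).2
  refine ⟨y, fun i j => ?_⟩
  rw [hval, hval, mul_div_mul_left _ _ (pow_ne_zero 2 h0)]
  exact div_mem (hin i) (hin j)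

end

end MP2619.K
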