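import Pool.Agent.Lib.MP_2619d0_ag.T.A2

/-!
Row K6a: linear algebra.
-/

set_option autoImplicit false

namespace MP2619.K

open Pool.Agent.Lib.MP_2619d0_ag.T Pool.Agent.Lib.MP_2619d0_ag

/-- a nonzero vector is a multiple of a primitive one -/
theorem K6_scale {M : Type*} [Field M] (O : ValuationSubring M) {n : ℕ} (w : Fin n → M)
    (hw : w ≠ 0) : ∃ (g : M) (z : Fin n → O) (i : Fin n), g ≠ 0 ∧ z i = 1 ∧
      w = g • fun i => (z i : M) := by
  classical
  obtain ⟨i0, hi0⟩ := Function.ne_iff.1 hw
  obtain ⟨g, hg, hg0, hgO⟩ := exists_scale O (Finset.univ.image w)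
    ⟨w i0, Finset.mem_image_of_mem w (Finset.mem_univ i0), hi0⟩
  obtain ⟨i, -, hi⟩ := Finset.mem_image.1 hg
  refine ⟨g, fun i => ⟨g⁻¹ * w i, hgO _ (Finset.mem_image_of_mem w (Finset.mem_univ i))⟩, i,
    hg0, ?_, ?_⟩
  · apply Subtype.ext
    change g⁻¹ * w i = 1
    rw [hi, inv_mul_cancel₀ hg0]
  · funext j
    change w j = g * (g⁻¹ * w j)
    rw [mul_inv_cancel_left₀ hg0]

theorem K6_red {M : Type*} [Field M] (O : ValuationSubring M) {n : ℕ} (k : ℕ) :
    ∀ U : Submodule M (Fin n → M), k ≤ Module.finrank M U →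
      k ≤ Module.finrank (IsLocalRing.ResidueField O) (redSub O U) := by
  induction k with
  | zero => intro U _; exact Nat.zero_le _
  | succ k ih =>
    intro U hU
    have hne : U ≠ ⊥ := by
      rintro rfl
      rw [finrank_bot] at hU
      omega
    obtain ⟨u0, hu0, hu0'⟩ := Submodule.exists_mem_ne_zero_of_ne_bot hne
    obtain ⟨g, z, i, hg, hz, hgz⟩ := K6_scale O u0 hu0'
    have hzU : (fun i => (z i : M)) ∈ U := by
      have h1 : (fun i => (z i : M)) = g⁻¹ • u0 := by
        rw [hgz, smul_smul, inv_mul_cancel₀ hg, one_smul]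
      rw [h1]
      exact U.smul_mem _ hu0
    let f : U →ₗ[M] M := (LinearMap.proj i).comp U.subtype
    have h2 := LinearMap.finrank_range_add_finrank_ker f
    have h3 : Module.finrank M (LinearMap.range f) ≤ 1 := by
      have h4 := Submodule.finrank_le (LinearMap.range f)
      rwa [Module.finrank_self] at h4
    let U' : Submodule M (Fin n → M) := (LinearMap.ker f).map U.subtype
    have h5 : Module.finrank M U' = Module.finrank M (LinearMap.ker f) :=
      Submodule.finrank_map_subtype_eq U (LinearMap.ker f)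
    have h6 : k ≤ Module.finrank M U' := by omega
    have h7 := ih U' h6
    have hle : redSub O U' ≤ redSub O U := by
      rintro _ ⟨x, ⟨y, hy, hyx⟩, rfl⟩
      refine ⟨x, ?_, rfl⟩
      rw [← hyx]
      exact y.2
    have hlt : redSub O U' < redSub O U := by
      refine lt_of_le_of_ne hle fun h => ?_
      have h8 : (fun i => IsLocalRing.residue O (z i)) ∈ redSub O U := ⟨z, hzU, rfl⟩
      rw [← h] at h8
      obtain ⟨x, ⟨y, hy, hyx⟩, hx⟩ := h8
      have h9 : (x i : M) = 0 := by
        have h10 := congrFun hyx i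
        have hy' : f y = 0 := LinearMap.mem_ker.1 hy
        change (y : Fin n → M) i = (x i : M) at h10
        rw [← h10]
        exact hy'
      have h11 : x i = 0 := Subtype.ext h9
      have h12 := congrFun hx i
      simp only [hz, h11, map_one, map_zero] at h12
      exact one_ne_zero h12
    have h13 := Submodule.finrank_lt_finrank_of_lt hlt
    omega

section char2

variable {K : Type*} [Field K]

/-- vectors whose squares are orthogonal to a subspace -/
def K6_S (hadd : ∀ a b : K, (a + b) ^ 2 = a ^ 2 + b ^ 2) {n : ℕ} (T : Submodule K (Fin n → K)) :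
    Submodule K (Fin n → K) where
  carrier := {u | ∀ t ∈ T, ∑ i, u i ^ 2 * t i = 0}
  zero_mem' := by
    intro t _
    simp
  add_mem' := by
    intro a b ha hb t ht
    simp only [Pi.add_apply, hadd, add_mul, Finset.sum_add_distrib]
    rw [ha t ht, hb t ht, add_zero]
  smul_mem' := by
    intro c a ha t ht
    have h1 : ∀ i, (c • a) i ^ 2 * t i = c ^ 2 * (a i ^ 2 * t i) := by
      intro i
      rw [Pi.smul_apply, smul_eq_mul]
      ring
    simp only [h1]
    rw [← Finset.mul_sum, ha t ht, mul_zero]

theorem K6_orth {n : ℕ} (T : Submodule K (Fin n → K)) {r : ℕ} (q : Fin r → Fin n → K)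
    (hq : LinearIndependent K q) (horth : ∀ j, ∀ t ∈ T, ∑ i, q j i * t i = 0) :
    r + Module.finrank K T ≤ n := by
  classical
  let f : (Fin n → K) →ₗ[K] (T →ₗ[K] K) :=
    { toFun := fun c =>
        { toFun := fun w => ∑ i, c i * (w : Fin n → K) i
          map_add' := by
            intro x y
            simp only [Submodule.coe_add, Pi.add_apply, mul_add, Finset.sum_add_distrib]
          map_smul' := by
            intro r x
            simp only [Submodule.coe_smul, Pi.smul_apply, smul_eq_mul, RingHom.id_apply,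
              Finset.mul_sum]
            exact Finset.sum_congr rfl fun i _ => by ring }
      map_add' := by
        intro x y
        ext w
        simp [add_mul, Finset.sum_add_distrib]
      map_smul' := by
        intro r x
        ext w
        simp [Finset.mul_sum, mul_assoc] }
  have hsurj : LinearMap.range f = ⊤ := by
    rw [LinearMap.range_eq_top]
    intro g
    obtain ⟨g', hg'⟩ := LinearMap.exists_extend g
    refine ⟨fun i => g' (Pi.single i 1), ?_⟩
    ext w
    change ∑ i, g' (Pi.single i 1) * (w : Fin n → K) i = g w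
    rw [← hg']
    change _ = g' (w : Fin n → K)
    have h2 : (w : Fin n → K) = ∑ i, (w : Fin n → K) i • (Pi.single i (1 : K) : Fin n → K) := by
      funext j
      simp [Finset.sum_apply, Pi.single_apply]
    conv_rhs => rw [h2]
    rw [map_sum]
    refine Finset.sum_congr rfl fun i _ => ?_
    rw [map_smul, smul_eq_mul, mul_comm]
  have h1 := LinearMap.finrank_range_add_finrank_ker f
  rw [hsurj, finrank_top, Subspace.dual_finrank_eq, Module.finrank_fin_fun] at h1
  have hmem : ∀ j, q j ∈ LinearMap.ker f := by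
    intro j
    rw [LinearMap.mem_ker]
    ext w
    exact horth j w w.2
  have hli : LinearIndependent K (fun j => (⟨q j, hmem j⟩ : LinearMap.ker f)) :=
    LinearIndependent.of_comp (LinearMap.ker f).subtype hq
  have h2 := hli.fintype_card_le_finrank
  rw [Fintype.card_fin] at h2
  omega

theorem K6_sq {n r : ℕ} (h2 : (2 : K) = 0) (q : Fin r → Fin n → K) (hq : LinearIndependent K q) :
    LinearIndependent K (fun j i => q j i ^ 2) := by
  classical
  have : CharP K 2 := CharTwo.of_one_ne_zero_of_two_eq_zero one_ne_zero h2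
  have : ExpChar K 2 := ExpChar.prime Nat.prime_two
  rw [linearIndependent_iff_injective_fintypeLinearCombination] at hq
  obtain ⟨g, hg⟩ := LinearMap.exists_leftInverse_of_injective
    (Fintype.linearCombination K q) (LinearMap.ker_eq_bot.2 hq)
  have key : ∀ j j', ∑ i, g (Pi.single i 1) j * q j' i = if j' = j then 1 else 0 := by
    intro j j'
    have h3 := congrFun (LinearMap.congr_fun hg (Pi.single j' 1)) j
    rw [LinearMap.comp_apply, Fintype.linearCombination_apply_single, one_smul] at h3
    have h4 : q j' = ∑ i, q j' i • (Pi.single i (1 : K) : Fin n → K) := by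
      funext j
      simp [Finset.sum_apply, Pi.single_apply]
    rw [h4, map_sum, Finset.sum_apply] at h3
    have h5 : (LinearMap.id (R := K) (Pi.single j' (1 : K) : Fin r → K)) j =
        if j' = j then 1 else 0 := by
      rw [LinearMap.id_apply, Pi.single_apply]
      by_cases h : j' = j
      · rw [if_pos h, if_pos h.symm]
      · rw [if_neg h, if_neg (Ne.symm h)]
    rw [h5] at h3
    rw [← h3]
    refine Finset.sum_congr rfl fun i _ => ?_
    rw [map_smul, Pi.smul_apply, smul_eq_mul, mul_comm]
  have key2 : ∀ j j', ∑ i, g (Pi.single i 1) j ^ 2 * q j' i ^ 2 = if j' = j then 1 else 0 := by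
    intro j j'
    have h3 : (∑ i, g (Pi.single i 1) j * q j' i) ^ 2 = (if j' = j then 1 else 0) ^ 2 :=
      congrArg (fun a => a ^ 2) (key j j')
    rw [show (∑ i, g (Pi.single i 1) j * q j' i) ^ 2 = ∑ i, (g (Pi.single i 1) j * q j' i) ^ 2
      from sum_pow_char 2 _ _] at h3
    rw [← Finset.sum_congr rfl (fun i _ => mul_pow _ _ _ : ∀ i ∈ Finset.univ,
      (g (Pi.single i 1) j * q j' i) ^ 2 = g (Pi.single i 1) j ^ 2 * q j' i ^ 2), h3]
    split_ifs <;> simp
  rw [Fintype.linearIndependent_iff]
  intro l hl j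
  have h3 : ∑ i, g (Pi.single i 1) j ^ 2 * ∑ j', l j' * q j' i ^ 2 = 0 := by
    refine Finset.sum_eq_zero fun i _ => ?_
    have h4 := congrFun hl i
    rw [Finset.sum_apply] at h4
    simp only [Pi.smul_apply, smul_eq_mul, Pi.zero_apply] at h4
    rw [h4, mul_zero]
  simp only [Finset.mul_sum] at h3
  rw [Finset.sum_comm] at h3
  have h5 : ∀ j', ∑ i, g (Pi.single i 1) j ^ 2 * (l j' * q j' i ^ 2) =
      l j' * if j' = j then 1 else 0 := by
    intro j'
    rw [← key2 j j', Finset.mul_sum]
    refine Finset.sum_congr rfl fun i _ => ?_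
    ring
  simp only [h5] at h3
  simpa using h3

/-- The dimension count in characteristic two. -/
theorem K6_dim (h2 : (2 : K) = 0) (hadd : ∀ a b : K, (a + b) ^ 2 = a ^ 2 + b ^ 2) {n : ℕ}
    (T : Submodule K (Fin n → K)) :
    Module.finrank K (K6_S hadd T) + Module.finrank K T ≤ n := by
  let b := Module.finBasis K (K6_S hadd T)
  have h1 : LinearIndependent K (fun j => (b j : Fin n → K)) :=
    b.linearIndependent.map' (K6_S hadd T).subtype (Submodule.ker_subtype _)
  refine K6_orth T _ (K6_sq h2 _ h1) ?_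
  intro j t ht
  exact (b j).2 t ht

/-- A totally isotropic subspace `T` and two more vectors with squares orthogonal to `T`. -/
theorem K6_count (h2 : (2 : K) = 0) {n : ℕ} (T : Submodule K (Fin n → K))
    (hT : ∀ s ∈ T, ∀ t ∈ T, ∑ i, s i ^ 2 * t i = 0) (x y : Fin n → K)
    (hx : ∀ t ∈ T, ∑ i, x i ^ 2 * t i = 0) (hxT : x ∉ T) (hxx : ∑ i, x i ^ 3 = 0)
    (hy : ∀ t ∈ T, ∑ i, y i ^ 2 * t i = 0) (hxy : ∑ i, x i ^ 2 * y i ≠ 0) :
    2 * Module.finrank K T + 2 ≤ n := by
  have : CharP K 2 := CharTwo.of_one_ne_zero_of_two_eq_zero one_ne_zero h2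
  have hadd : ∀ a b : K, (a + b) ^ 2 = a ^ 2 + b ^ 2 := fun a b => add_pow_char (R := K) (p := 2) a b
  have h1 := K6_dim h2 hadd T
  have hxS : x ∈ K6_S hadd T := hx
  have hle : T ≤ K6_S hadd T := fun s hs => hT s hs
  have hlt1 : T < T ⊔ Submodule.span K {x} := by
    refine lt_of_le_of_ne le_sup_left fun h => hxT ?_
    rw [h]
    exact Submodule.mem_sup_right (Submodule.mem_span_singleton_self x)
  have hlt2 : T ⊔ Submodule.span K {x} < K6_S hadd T := by
    refine lt_of_le_of_ne (sup_le hle ?_) fun h => ?_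
    · rw [Submodule.span_singleton_le_iff_mem]
      exact hxS
    · have hyS : y ∈ K6_S hadd T := hy
      rw [← h, Submodule.mem_sup] at hyS
      obtain ⟨t, ht, w, hw, rfl⟩ := hyS
      obtain ⟨c, rfl⟩ := Submodule.mem_span_singleton.1 hw
      apply hxy
      have h3 : ∀ i, x i ^ 2 * (t + c • x) i = x i ^ 2 * t i + c * x i ^ 3 := by
        intro i
        rw [Pi.add_apply, Pi.smul_apply, smul_eq_mul]
        ring
      simp only [h3, Finset.sum_add_distrib, ← Finset.mul_sum]
      rw [hx t ht, hxx, mul_zero, add_zero]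
  have h3 := Submodule.finrank_lt_finrank_of_lt hlt1
  have h4 := Submodule.finrank_lt_finrank_of_lt hlt2
  omega

end char2

end MP2619.K
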